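import Pool.Agent.H46.Tn.H
set_option autoImplicit false
open Polynomial Finset
namespace Pool.Agent.H46.Tn
open Wx

theorem engine0 (θ : ℝ) {N : ℕ} (hN : 1 ≤ N) (c γ : ℕ) (Sp : ℤ[X] → Prop) (Z : ℕ → ℝ) (Z0 : 2 ≤ Z 0)
    (hZ : ∀ r, Z (r + 1) = Z r ^ 2) (h : ∀ s, ∃ r, s ≤ r ∧ r ≤ s + γ ∧ ∃ Q : ℤ[X], Q ≠ 0 ∧ Q.natDegree ≤ 8 * N ∧
      mm Q ≤ Z r ^ 24 ∧ Z r ^ (Q.natDegree + 1) * mm Q ^ N * ‖aeval (θ : ℂ) Q‖ ≤ 1 ∧
        (1 ≤ Z r ^ c * ‖aeval (θ : ℂ) Q‖ ∨ Sp Q)) :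
    ∃ c0 > 0, ∀ P : ℤ[X], Irreducible P → P.natDegree ≤ N → (∀ Q, Sp Q → ¬ P ∣ Q) →
      c0 ≤ mm P ^ (2 * 2 ^ γ * (c + 32 * N + 25)) * ‖aeval (θ : ℂ) P‖ := by
  classical
  obtain ⟨K, K1, hK⟩ := bd (8 * N) (R := |θ| + 1) (by simp)
  set K' := 2 ^ (8 * N) * K with hK'
  have K2 : K ≤ K' := le_mul_of_one_le_left (by linarith) (one_le_pow₀ one_le_two)
  set κ := 2 ^ N * K' ^ N * 2 with hκ
  have κ0 : 2 ^ N * K' ^ N ≤ κ := le_mul_of_one_le_right (by positivity) one_le_two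
  have κ1 : K' ^ N * 2 ≤ κ := by
    rw [hκ, mul_assoc]; exact le_mul_of_one_le_left (by positivity) (one_le_pow₀ one_le_two)
  have κ2 : K ≤ κ := by linarith [le_self_pow₀ (K1.trans K2) (by omega : N ≠ 0)]
  have Zr : ∀ r : ℕ, (r : ℝ) + 2 ≤ Z r := fun r => by
    induction r with
    | zero => simpa
    | succ r ih => rw [hZ]; push_cast; nlinarith [r.cast_nonneg (α := ℝ)]
  refine ⟨(((Z 0 * κ ^ 2) ^ 2 ^ γ) ^ (c + 32 * N + 25))⁻¹, by positivity, fun P hP hd hs => ?_⟩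
  have m1 : 1 ≤ mm P := one_le_mahlerMeasure_of_ne_zero hP.ne_zero
  have m2 : 1 ≤ κ * mm P := one_le_mul_of_one_le_of_one_le (K1.trans κ2) m1
  obtain ⟨s, s1, s2⟩ : ∃ r, κ * mm P ≤ Z r ∧ Z r ≤ Z 0 * κ ^ 2 * mm P ^ 2 := by
    have ex : ∃ r, κ * mm P ≤ Z r := (exists_nat_ge (κ * mm P)).imp fun r hr => by linarith [Zr r]
    refine ⟨Nat.find ex, Nat.find_spec ex, ?_⟩
    rw [mul_assoc (Z 0), ← mul_pow]
    rcases e : Nat.find ex with _ | j
    · exact le_mul_of_one_le_right (by linarith) (one_le_pow₀ m2)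
    have := not_le.mp (Nat.find_min ex (by omega : j < Nat.find ex))
    rw [hZ]
    exact (pow_le_pow_left₀ (by linarith [Zr j, j.cast_nonneg (α := ℝ)]) this.le 2).trans
      (le_mul_of_one_le_left (by positivity) (by linarith))
  obtain ⟨r, l1, l2, Q, q0, q1, q2, q3, q4⟩ := h s
  have eZ : Z r = Z s ^ 2 ^ (r - s) := by
    obtain ⟨j, rfl⟩ := Nat.exists_eq_add_of_le l1
    rw [Nat.add_sub_cancel_left]
    clear * - hZ
    induction j with
    | zero => simp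
    | succ j ih => rw [← add_assoc, hZ, ih, ← pow_mul, ← pow_succ]
  have r1 : κ * mm P ≤ Z r := s1.trans (eZ ▸ le_self_pow₀ (m2.trans s1) (by positivity))
  have r2 : Z r ≤ (Z 0 * κ ^ 2) ^ 2 ^ γ * mm P ^ (2 * 2 ^ γ) := by
    rw [pow_mul, ← mul_pow, eZ]
    exact (pow_le_pow_right₀ (m2.trans s1) (Nat.pow_le_pow_right two_pos (by omega))).trans
      (pow_le_pow_left₀ (by linarith) s2 _)
  have Z1 : 1 ≤ Z r := m2.trans r1
  have Zκ : κ ≤ Z r := (le_mul_of_one_le_right (by linarith) m1).trans r1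
  have Zm : mm P ≤ Z r := (le_mul_of_one_le_left (by linarith) (K1.trans κ2)).trans r1
  suffices H : 1 ≤ Z r ^ (c + 32 * N + 25) * ‖aeval (θ : ℂ) P‖ by
    rw [inv_le_iff_one_le_mul₀' (by positivity), pow_mul, ← mul_assoc, ← mul_pow]
    exact H.trans (by gcongr)
  have mq : 1 ≤ mm Q := one_le_mahlerMeasure_of_ne_zero q0
  by_cases dv : P ∣ Q
  · have q5 := q4.resolve_right fun k => hs Q k dv
    obtain ⟨E, rfl⟩ := dv
    have E0 := right_ne_zero_of_mul q0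
    rw [natDegree_mul hP.ne_zero E0] at q1
    have e1 := (hK E (by omega) θ θ (by simp) (by simp)).1
    have e2 : mm E ≤ Z r ^ 24 := le_trans (by
      rw [mm_mul]; exact le_mul_of_one_le_left (mahlerMeasure_nonneg _) m1) q2
    rw [map_mul, norm_mul] at q5
    calc (1 : ℝ) ≤ Z r ^ c * (‖aeval (θ : ℂ) P‖ * (Z r * Z r ^ 24)) := q5.trans (by
          gcongr; exact e1.trans (mul_le_mul (κ2.trans Zκ) e2 (mahlerMeasure_nonneg _)
            (by linarith)))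
      _ = Z r ^ (c + 25) * ‖aeval (θ : ℂ) P‖ := by ring
      _ ≤ _ := by gcongr; omega
  obtain d0 | d0 := P.natDegree.eq_zero_or_pos
  · refine one_le_mul_of_one_le_of_one_le (one_le_pow₀ Z1) ?_
    have := hP.ne_zero
    rw [eq_C_of_natDegree_eq_zero d0] at this ⊢
    rw [aeval_C, eq_intCast, Complex.norm_intCast]
    exact_mod_cast Int.one_le_abs (C_ne_zero.mp this)
  have S1 : 1 ≤ K' * mm Q := one_le_mul_of_one_le_of_one_le (K1.trans K2) mq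
  have := res hP d0 dv hd (θ := θ) S1 (norm_nonneg (aeval (θ : ℂ) Q)) (fun z => ?_) ?_
  · refine this.trans (mul_le_mul_of_nonneg_right ?_ (norm_nonneg _))
    calc _ = 2 ^ N * K' ^ N * mm P ^ Q.natDegree * mm Q ^ N := by ring
      _ ≤ Z r * Z r ^ (8 * N) * (Z r ^ 24) ^ N := by
          gcongr ?_ * ?_ * ?_ ^ N
          exacts [κ0.trans Zκ, (pow_le_pow_left₀ (by linarith) Zm _).trans
            (pow_le_pow_right₀ Z1 q1)]
      _ = Z r ^ (32 * N + 1) := by ring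
      _ ≤ _ := pow_le_pow_right₀ Z1 (by omega)
  · have mx := one_le_pow₀ (n := Q.natDegree) (le_max_left 1 ‖z‖)
    rw [mul_min_of_nonneg _ _ (by positivity), mul_one, le_min_iff]
    have g : ‖aeval z Q‖ ≤ K' * mm Q * max 1 ‖z‖ ^ Q.natDegree := (evle Q z).trans (by
      gcongr
      exact (pow_le_pow_right₀ one_le_two q1).trans (le_mul_of_one_le_right (by positivity) K1))
    refine ⟨g, ?_⟩
    by_cases c1 : 1 ≤ ‖(θ : ℂ) - z‖
    · exact g.trans (le_mul_of_one_le_right (by positivity) (by linarith [norm_nonneg (aeval (θ : ℂ) Q)]))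
    have n2 := norm_sub_norm_le z (θ : ℂ)
    rw [norm_sub_rev, Complex.norm_real, Real.norm_eq_abs] at n2
    have U := (hK Q q1 θ z (by simp) (by linarith)).2
    have n3 := norm_sub_norm_le (aeval z Q) (aeval (θ : ℂ) Q)
    rw [norm_sub_rev] at n3
    calc _ ≤ K' * mm Q * ‖(θ : ℂ) - z‖ + K' * mm Q * ‖aeval (θ : ℂ) Q‖ := by
          have : K * mm Q * ‖(θ : ℂ) - z‖ ≤ K' * mm Q * ‖(θ : ℂ) - z‖ := by gcongr
          linarith [le_mul_of_one_le_left (norm_nonneg (aeval (θ : ℂ) Q)) S1]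
      _ = K' * mm Q * 1 * (‖(θ : ℂ) - z‖ + ‖aeval (θ : ℂ) Q‖) := by ring
      _ ≤ _ := by gcongr
  · refine le_trans ?_ q3
    calc _ = mm P ^ Q.natDegree * (K' ^ N * 2) * mm Q ^ N * ‖aeval (θ : ℂ) Q‖ := by ring
      _ ≤ _ := by rw [pow_succ]; gcongr; exact κ1.trans Zκ

namespace Dt
variable (d : Dt) {g : ℕ → ℕ} (hg : ∀ i, 1 ≤ g i ∧ g i ≤ 2 ^ (12 * i + 7)) {ξ : ℝ}

include hg in
lemma xi2 : ∃ ξ : ℝ, ∀ R, |ξ - d.S g (R + 1)| ≤ τ R / 2 := by
  have b : ∀ R j, ‖aeval (τ (j + (R + 1))) (d.it g (j + (R + 1)))‖ ≤ τ R / 2 / 2 / 2 ^ j := fun R j => by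
    set i := j + (R + 1)
    by_cases h : i < 10
    · rw [d.it_small h]; simpa using by have := τ_pos R; positivity
    have := (d.it_Sz hg i).small (o := 1) (z := τ i) (by
      simpa [it] using (dvd_add_right (dvd_mul_left _ _)).mpr (d.it_cases i).1) (by
      rw [Complex.norm_real, Real.norm_of_nonneg (τ_pos i).le]; linarith [τ_le i])
    rw [cst, Complex.norm_real, Real.norm_of_nonneg (τ_pos i).le, pow_one] at this
    refine this.trans ?_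
    rw [← τ_pow (show j + R ≤ i by omega), show i - (j + R) = 1 by omega]
    have k := τ_mul (i := j + R) (k := 12 * i + 9 + (j + 2))
      (le_trans (by nlinarith [show 9 ≤ j + R by omega, show i = j + R + 1 by omega]) (pw2 (c := 6) (a := 9) (j + R) (by omega) (by omega) (by norm_num)))
    have k2 : τ (j + R) ≤ τ R := by
      rw [← τ_pow (Nat.le_add_left R j)]
      exact pow_le_of_le_one (τ_pos R).le (by linarith [τ_le R]) (by positivity)
    rw [div_div, div_div, le_div_iff₀ (by positivity)]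
    calc _ = 2 ^ (12 * i + 9 + (j + 2)) * τ (j + R) * τ (j + R) := by ring
      _ ≤ 1 * τ R := mul_le_mul k k2 (τ_pos _).le zero_le_one
      _ = _ := one_mul _
  have s : Summable fun i => aeval (τ i) (d.it g i) := (summable_nat_add_iff 1).mp
    (.of_norm_bounded (summable_geometric_two' _) (b 0))
  refine ⟨∑' i, aeval (τ i) (d.it g i), fun R => ?_⟩
  rw [← s.sum_add_tsum_nat_add (R + 1), S, add_sub_cancel_left, ← Real.norm_eq_abs]
  exact tsum_of_norm_bounded (hasSum_geometric_two' _) (b R)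

lemma rho2 (r : ℕ) : ∃ ρ, ρ ≤ r ∧ r ≤ 2 * ρ ∧ (∀ k, d.σ k < ρ → d.σ k + (2 * k + 2 + d.e k) < ρ) ∧
    (∀ k, d.σ k ≤ r → r ≤ d.σ k + (2 * k + 2 + d.e k) → ρ = d.σ k) ∧
    ∀ k, d.σ k ≤ r → d.σ k ≤ ρ := by
  by_cases h : ∃ k, d.σ k ≤ r ∧ r ≤ d.σ k + (2 * k + 2 + d.e k)
  · obtain ⟨k, h1, h2⟩ := h
    refine ⟨d.σ k, h1, by have := d.hσ k; omega, fun j hj => ?_, fun j j1 j2 => ?_,
      fun j hj => d.mono.monotone (not_lt.mp fun l => by have := d.sep l; omega)⟩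
    · have := d.sep (d.mono.lt_iff_lt.mp hj); omega
    rcases lt_trichotomy j k with h | rfl | h
    exacts [by have := d.sep h; omega, rfl, by have := d.sep h; omega]
  push Not at h
  exact ⟨r, le_rfl, by omega, fun k hk => h k hk.le, fun k a b => absurd (h k a) b.not_gt,
    fun _ h => h⟩

lemma dg {ι : Type*} (cond : ι → Prop) (ρ R D m T δ : ι → ℕ) (act : ℕ → Finset ι)
    (hact : ∀ c i, cond c → ρ c ≤ i → i < R c → c ∈ act i)
    (hG : ∀ i, ∑ c ∈ act i, δ c < 2 ^ (12 * i + 7))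
    (hδ : ∀ c, cond c → (D c + 1) * (m c + 1) * (2 * m c) ≤ δ c)
    (W : ∀ c, cond c → ∃ g, ZE (D c) (m c) (T c) ((d.y g (ρ c) (R c)).map (Int.castRingHom ℚ))) :
    ∃ g : ℕ → ℕ, (∀ i, 1 ≤ g i ∧ g i ≤ 2 ^ (12 * i + 7)) ∧
      ∀ c, cond c → ZE (D c) (m c) (T c) ((d.y g (ρ c) (R c)).map (Int.castRingHom ℚ)) := by
  classical
  refine greedy (fun c g => cond c → ZE (D c) (m c) (T c)
    ((d.y g (ρ c) (R c)).map (Int.castRingHom ℚ))) ρ (fun c => if cond c then R c else 0) δ _ act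
    (fun c i a b => ?_) hG (fun c => ?_) (fun c g g' e h a => ?_) fun c g i h => ?_
  · split_ifs at b with h
    exacts [hact c i h a b, absurd b (by simp)]
  · by_cases h : cond c
    exacts [(W c h).imp fun g h _ => h, ⟨0, fun a => absurd a h⟩]
  · rw [← d.y_congr (g := g) fun i hi _ => e i (mem_Ico.mp hi).1 (by
      rw [if_pos a]; exact (mem_Ico.mp hi).2)]
    exact h a
  by_cases k : cond c ∧ i ∈ Ico (ρ c) (R c) ∧ d.free i
  · obtain ⟨a, k1, k2⟩ := k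
    have := h a
    rw [← Function.update_eq_self i g, d.y_map g _ k1 k2] at this
    obtain ⟨t, t1, t2⟩ := nats this
    exact ⟨t, t1.trans (hδ c a), fun v hv _ => by rw [d.y_map g _ k1 k2]; exact t2 v hv⟩
  refine ⟨∅, by simp, fun v _ a => ?_⟩
  rw [← d.y_congr (g := g) fun j hj f => (Function.update_of_ne (by
    rintro rfl; exact k ⟨a, hj, f⟩) _ _).symm]
  exact h a

include hg in
lemma win2 (k : ℕ) {o : ℝ} (ho : ∃ q : ℤ, (q : ℝ) = 2 ^ 2 ^ d.σ k * o ∧ 3 ∣ q) (xh : |ξ| ≤ 1 / 2)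
    (hξ : ∀ R, R + 2 ≤ d.σ (k + 1) → |ξ - o - d.S g (R + 1)| ≤ τ R) :
    ∃ (p : ℤ) (α : ℝ), 3 ∣ p ∧ |(p : ℝ)| ≤ 2 ^ 2 ^ (d.σ k + (k + 1)) ∧
    aeval α (MP (2 ^ d.σ k) (2 ^ (d.σ k + (k + 1))) (d.n k) p) = 0 ∧
    τ (d.σ k + (k + 1 + d.e k)) ≤ ξ - α ∧
    ξ - α ≤ τ (d.σ k + (k + 1 + d.e k)) * 2 ^ 2 ^ (d.σ k + (k + 1)) ∧
    τ (d.σ k + (k + 1 + d.e k)) ≤ |aeval ξ (MP (2 ^ d.σ k) (2 ^ (d.σ k + (k + 1))) (d.n k) p)| ∧
    |aeval ξ (MP (2 ^ d.σ k) (2 ^ (d.σ k + (k + 1))) (d.n k) p)| ≤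
      τ (d.σ k + (k + 1 + d.e k)) * (2 ^ 2 ^ (d.σ k + (k + 1))) ^ 2 := by
  obtain ⟨-, s1, s2, s3, s4⟩ := d.hσ k
  obtain ⟨a1, a2, -, -, -, a3, a4⟩ := d.ha k
  obtain ⟨-, n1⟩ := d.hn k
  have e1 := d.he k
  obtain ⟨q, q1, q2⟩ := d.intS (g := g) (ρ := d.σ k) fun j hj => by
    have := d.sep (d.mono.lt_iff_lt.mp hj); omega
  obtain ⟨q, q1, q2⟩ : ∃ q : ℤ, (q : ℝ) = 2 ^ 2 ^ d.σ k * (o + d.S g (d.σ k)) ∧ 3 ∣ q :=
    ho.elim fun u ⟨u1, u2⟩ => ⟨u + q, by push_cast; rw [u1, q1, mul_add], dvd_add u2 q2⟩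
  have fr := d.free_of (i := d.σ k + (k + 1 + d.e k)) (k := k) (by omega) (by omega) (by omega)
  have E := d.y_eval g (ρ := d.σ k) (R := d.σ k + (k + 1 + d.e k) + 1) (by omega)
  rw [d.y_win g (by omega) (by omega), map_add, map_sum, sum_congr rfl fun i hi => by
      rw [map_mul, map_pow, aeval_X, τ_pow (mem_Ico.mp hi).1, aeval_C, eq_intCast],
    sum_Ico_succ_top (by omega), ← sum_Ico_consecutive _ (n := d.σ k + (k + 1)) (by omega)
      (by omega), sum_eq_zero (s := Ico (d.σ k + (k + 1)) _) fun i hi => by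
        rw [cf, if_neg fun f => f.2 k (mem_Ico.mp hi)]; simp, cf, if_pos fr, map_mul, map_pow,
    aeval_X, ← Nat.add_sub_cancel_left (n := d.σ k) (m := k + 1), τ_pow (by omega),
    Nat.add_sub_cancel_left] at E
  have hη := abs_le.mp (hξ (d.σ k + (k + 1 + d.e k)) (by omega))
  have G1 := hg (d.σ k + (k + 1 + d.e k))
  have A1 := a3.τ (o := 1) (by simpa) (d.σ k)
  have A2 := a4.τ a2 (d.σ k)
  rw [← Nat.add_sub_cancel_left (n := d.σ k) (m := 2 * k + 2 + d.e k), τ_pow (by omega)] at A2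
  simp only [map_sub, map_one, pow_one, map_pow, map_add, map_mul, aeval_X,
    map_natCast, map_ofNat] at A1 A2
  set σ := d.σ k
  set n := d.n k
  set D := σ + (k + 1 + d.e k)
  set A := aeval (τ σ) (d.a k)
  set s := σ + (k + 1)
  have t1 : σ * τ σ ≤ 1 := (mul_le_mul_of_nonneg_right (by exact_mod_cast Nat.lt_two_pow_self.le)
    (τ_pos _).le).trans (τ_mul Nat.lt_two_pow_self.le)
  have sq : ∀ i, τ (i + 1) = τ i ^ 2 := fun i => by rw [← τ_pow (Nat.le_succ i)]; simp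
  have p2 := pw2 (c := 5) (a := 10) σ (by omega) (by omega) (by norm_num)
  have nb : (3 * 2 ^ (12 * D + 7) + 1 + 1) * n * 3 ^ n ≤ 2 ^ 2 ^ σ :=
    calc _ ≤ 2 ^ (24 * σ + 9) * 2 ^ σ * (2 ^ 2) ^ σ := by
          gcongr ?_ * ?_ * ?_
          · have := Nat.pow_le_pow_right two_pos (show 12 * D + 7 ≤ 24 * σ + 7 by omega)
            have := Nat.pow_le_pow_right two_pos (show 1 ≤ 24 * σ + 7 by omega)
            rw [pow_add _ _ 9]; rw [pow_add _ (24 * σ)] at *; omega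
          · exact s2.trans Nat.lt_two_pow_self.le
          · exact (Nat.pow_le_pow_left (by norm_num) _).trans (Nat.pow_le_pow_right (by norm_num) s2)
      _ = 2 ^ (27 * σ + 9) := by rw [← pow_mul]; ring
      _ ≤ _ := Nat.pow_le_pow_right two_pos (by nlinarith)
  have n5 : 5 * n ^ 2 ≤ 2 ^ 2 ^ σ := ((Nat.mul_le_mul_left _ (Nat.pow_le_pow_left s2 2)).trans
    p2).trans Nat.lt_two_pow_self.le
  set B : ℝ := 2 ^ 2 ^ s with hB
  have B8 : 8 ≤ B := by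
    rw [show (8 : ℝ) = 2 ^ 3 by norm_num]
    exact pow_le_pow_right₀ one_le_two (le_trans (by omega) Nat.lt_two_pow_self.le)
  have bB : (2 : ℝ) ^ 2 ^ σ * 2 ^ 2 ^ σ ≤ B := by
    rw [← pow_add, ← two_mul, ← pow_succ']
    exact pow_le_pow_right₀ one_le_two (Nat.pow_le_pow_right two_pos (by omega))
  have Bτ : B * τ s = 1 := mul_inv_cancel₀ (by positivity)
  set G : ℝ := 3 * 2 ^ (12 * D + 7) + 1
  replace nb : (G + 1) * n * 3 ^ n ≤ 2 ^ 2 ^ σ := by simp only [G]; exact_mod_cast nb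
  have GB : G + 1 ≤ B := by
    refine le_trans ?_ (nb.trans (le_trans (le_mul_of_one_le_right (by positivity)
      (one_le_pow₀ one_le_two)) bB))
    rw [mul_assoc]
    exact le_mul_of_one_le_right (by positivity) (one_le_mul_of_one_le_of_one_le
      (by exact_mod_cast (by omega : 1 ≤ n)) (one_le_pow₀ (by norm_num)))
  set x := o + d.S g σ + ∑ i ∈ Ico σ s, d.cf g i * τ i
  obtain ⟨p, p1, p3⟩ : ∃ p : ℤ, (p : ℝ) = B * x ∧ 3 ∣ p := by
    refine ⟨2 ^ (2 ^ s - 2 ^ σ) * q + ∑ i ∈ Ico σ s, d.cf g i * 2 ^ (2 ^ s - 2 ^ i), ?_,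
      dvd_add (q2.mul_left _) (dvd_sum fun i _ => (d.cf3 i).mul_right _)⟩
    push_cast
    rw [mul_add, mul_sum, q1, ← τ_int (by omega), ← mul_assoc, mul_assoc _ (τ σ), τ,
      inv_mul_cancel₀ (by positivity), mul_one]
    exact congrArg _ (sum_congr rfl fun i hi => by rw [← τ_int (mem_Ico.mp hi).2.le]; ring)
  have e0 := τ_pos D
  have g1 : (1 : ℝ) ≤ g D := by exact_mod_cast G1.1
  have g2 : (g D : ℝ) ≤ 2 ^ (12 * D + 7) := by exact_mod_cast G1.2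
  have eh : B * ξ - p - A = B * (3 * g D * τ D + (ξ - o - d.S g (D + 1))) := by
    push_cast at E
    linear_combination -p1 - B * E + A * Bτ
  obtain ⟨ω, w1, w2, w3, w4, w5⟩ := wr (n := n) (b := 2 ^ 2 ^ σ) (B := B) (ε := τ D) (A := A)
    (h := B * ξ - p - A) (G := G) (by omega) (by exact_mod_cast n5)
    (by linarith [(abs_le.mp A1).1]) e0 (A2.trans (by
      calc _ ≤ σ * τ (D + 1) := by gcongr; exact τ_anti (by omega)
        _ = σ * τ D * τ D := by rw [sq]; ring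
        _ ≤ σ * τ σ * τ D := by gcongr; exact τ_anti (by omega)
        _ ≤ _ := mul_le_of_le_one_left e0.le t1))
    (by rw [eh, ← mul_assoc, mul_comm _ B]; gcongr; nlinarith)
    (by rw [eh, ← mul_assoc, mul_comm _ B]; gcongr; simp only [G]; nlinarith) (by linarith)
    (by calc _ ≤ B * (τ (s + 1) * B) := by gcongr; exact τ_anti (by omega)
          _ = (B * τ s) ^ 2 := by rw [sq]; ring
          _ = _ := by rw [Bτ, one_pow]) (le_trans (by gcongr) bB)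
  rw [add_sub_cancel] at w2 w3 w4 w5
  have B0 : 0 < B := by linarith
  have ea : ξ - (p + ω) / B = (B * ξ - p - ω) / B := by field_simp; ring
  refine ⟨p, (p + ω) / B, p3, ?_, by
    rw [MP_ev, mul_div_cancel₀ _ B0.ne', add_sub_cancel_left, w1, sub_self], by
    rwa [ea, le_div_iff₀ B0], by
    rw [ea, div_le_iff₀ B0, mul_comm _ B]; exact w3.trans (by gcongr), by rwa [MP_ev]⟩
  have := abs_le.mp xh
  rw [abs_le] at w4 ⊢
  constructor <;> nlinarith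

include hg in
lemma gen2 {N r ρ : ℕ} {o : ℝ} (ho : ∃ q : ℤ, (q : ℝ) = 2 ^ 2 ^ ρ * o) (xh : |ξ| ≤ 1 / 2)
    (hξ : ∀ R, R < r + 8 * N → |ξ - o - d.S g (R + 1)| ≤ τ R) (hN : 4 ≤ N) (r0 : 40 ≤ r) (r1 : ρ ≤ r) (r2 : r ≤ 2 * ρ) (r4 : 8 * N ≤ r)
    (r3 : ∀ k, d.σ k < ρ → d.σ k + (2 * k + 2 + d.e k) < ρ)
    (ze : ZE (8 * N * 2 ^ (r - ρ)) (8 * N) (20 * (8 * N * 2 ^ (r - ρ) * (8 * N)))
      ((d.y g ρ (r + 8 * N)).map (Int.castRingHom ℚ))) :
    ∃ Q : ℤ[X], Q ≠ 0 ∧ Q.natDegree ≤ 8 * N ∧ mm Q ≤ (2 ^ (N * 2 ^ r)) ^ 24 ∧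
      (2 ^ (N * 2 ^ r)) ^ (Q.natDegree + 1) * mm Q ^ N * ‖aeval (ξ : ℂ) Q‖ ≤ 1 ∧
      1 ≤ (2 ^ (N * 2 ^ r)) ^ (1281 * N) * ‖aeval (ξ : ℂ) Q‖ := by
  obtain ⟨p, p1, -⟩ := d.intS (g := g) r3
  obtain ⟨p, p1⟩ : ∃ p : ℤ, (p : ℝ) = 2 ^ 2 ^ ρ * (o + d.S g ρ) :=
    ho.elim fun u u1 => ⟨u + p, by push_cast; rw [u1, p1, mul_add]⟩
  have eb : ((2 ^ 2 ^ (ρ - 1) : ℕ) : ℝ) ^ 2 = 2 ^ 2 ^ ρ := by
    push_cast; rw [← pow_mul, ← pow_succ, Nat.sub_add_cancel (by omega)]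
  have hS : ∀ R, 1 ≤ R → R ≤ r + 8 * N → |ξ - o - d.S g R| ≤ 1 / 2 := fun R h h' => by
    have := hξ (R - 1) (by omega); rw [Nat.sub_add_cancel h] at this; exact this.trans (τ_le _)
  have x1 := abs_le.mp xh
  have x2 := abs_le.mp (hS ρ (by omega) (by omega))
  have x3 := abs_le.mp (hS (r + 8 * N) (by omega) le_rfl)
  have ye := d.y_eval g (ρ := ρ) (R := r + 8 * N) (by omega)
  set t := 2 ^ (r - ρ) with ht
  have t1 : 1 ≤ t := Nat.one_le_two_pow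
  have eZ : (2 : ℝ) ^ (N * 2 ^ r) = (2 ^ 2 ^ ρ) ^ (N * t) := by
    rw [← pow_mul, ht, mul_left_comm, ← pow_add, Nat.add_sub_cancel' r1]
  have Nt : N ≤ N * t := Nat.le_mul_of_pos_right _ t1
  obtain ⟨Q, q0, q1, q2, q3, q4⟩ := aux (β := 2 ^ 2 ^ (ρ - 1)) (κ := 32 * (N * t * N)) (ξ := ξ)
    (x := o + d.S g ρ) (p := p) (by rwa [eb]) (abs_le.mpr ⟨by linarith, by linarith⟩)
    (one_le_pow₀ one_le_two) (d.y_Sz hg ρ _) (by
      rw [eb, ← τ, ye]; exact abs_le.mpr ⟨by linarith, by linarith⟩)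
    (abs_le.mpr ⟨by linarith, by linarith⟩) (by
      have := hξ (r + 8 * N - 1) (by omega)
      rw [Nat.sub_add_cancel (by omega), ← τ_pow (show ρ ≤ _ by omega)] at this
      rw [eb, ← τ, ye, sub_sub, add_assoc, add_sub_cancel, ← sub_sub]
      refine this.trans (pow_le_pow_of_le_one (τ_pos _).le (by linarith [τ_le ρ]) ?_)
      have := pw2 (c := 42) (a := 32) (8 * N) (by omega) (by omega) (by norm_num)
      rw [show r + 8 * N - 1 - ρ = r - ρ + (8 * N - 1) by omega, pow_add, ← ht]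
      rw [← Nat.sub_add_cancel (show 1 ≤ 8 * N by omega), pow_succ 2, Nat.sub_add_cancel (by omega)]
        at this
      calc _ ≤ t * (21 * (8 * N) ^ 2) := by nlinarith
        _ ≤ _ := by gcongr; omega) ze (by omega) (by
      have h1 : 8 * N < 2 ^ ρ := by
        have := pw2 (c := 1) (a := 4) ρ (by omega) (by omega) (by norm_num); nlinarith
      have h2 : t ≤ 2 ^ ρ := Nat.pow_le_pow_right two_pos (by omega)
      have h3 := pw2 (c := 400) (a := 20) ρ (by omega) (by omega) (by norm_num)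
      rw [← Nat.sub_add_cancel (show 1 ≤ ρ by omega), pow_succ 2, Nat.sub_add_cancel (by omega)]
        at h3
      rw [← pow_succ', ← pow_mul]
      norm_cast
      calc _ ≤ 4 * (2 ^ ρ * 2 ^ ρ * 2 ^ ρ) * 2 ^ ρ * 2 ^ ((52 * ρ + 10) * (2 * ρ)) := by
            gcongr 4 * (?_ * ?_) * ?_ * 2 ^ (?_ * ?_) <;> first | omega | nlinarith
        _ = 2 ^ (104 * ρ ^ 2 + 24 * ρ + 2) := by ring
        _ ≤ _ := Nat.pow_le_pow_right two_pos (by nlinarith)) (by nlinarith)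
  rw [eb] at q2 q3 q4
  rw [eZ]
  set b : ℝ := 2 ^ 2 ^ ρ
  have b2 : 2 ≤ b := le_self_pow₀ one_le_two (by positivity)
  have b1 : 1 ≤ b := by linarith
  simp only [← pow_mul]
  have NN : N * N ≤ N * t * N := by gcongr
  have N4 : N * t * 4 ≤ N * t * N := by gcongr
  refine ⟨Q, q0, q1, q2.trans (pow_le_pow_right₀ b1 (by nlinarith)), ?_, q3.trans ?_⟩
  · refine le_of_mul_le_mul_left (le_trans ?_ (q4.trans_eq (mul_one _).symm)) (by positivity)
    calc _ ≤ b ^ (8 * N * t + 8 * N) * (b ^ (N * t * (8 * N + 1)) *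
          (b ^ (8 * N * t + 8 * N + 1)) ^ N * ‖aeval (ξ : ℂ) Q‖) := by
          have : 0 ≤ mm Q := mahlerMeasure_nonneg _
          gcongr
      _ = b ^ (8 * N * t + 8 * N + N * t * (8 * N + 1) + (8 * N * t + 8 * N + 1) * N) *
          ‖aeval (ξ : ℂ) Q‖ := by ring
      _ ≤ _ := by gcongr; nlinarith
  rw [show N * t * (1281 * N) = N * t * N + 20 * (8 * N * t * (8 * N)) by ring, pow_add]
  gcongr
  exact le_trans (by nlinarith) (pow_le_pow_right₀ b1 (show 2 ≤ _ by nlinarith))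

end Dt
end Pool.Agent.H46.Tn
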