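import Pool.Agent.H46.Tm.A
set_option autoImplicit false
open Polynomial Finset
namespace Pool.Agent.H46.Tn
open Wx

def Good2 (n e : ℕ → ℕ) (ξ : ℝ) (M : ℕ → ℤ[X]) (B α : ℕ → ℝ) : Prop := 0 < ξ ∧ ξ ≤ 1 / 2 ∧
    (∀ ν, 2 ≤ ν → ∃ v : ℕ, ∃ c > 0, ∀ P : ℤ[X], Irreducible P → P.natDegree ≤ 2 ^ ν →
      (∀ k, ¬ P ∣ M k) → c ≤ mm P ^ v * ‖aeval (ξ : ℂ) P‖) ∧
    ∀ k, (∀ j, 0 < j → Irreducible (expand ℤ j (M k))) ∧ (M k).natDegree = n k ∧ k + 2 ≤ B k ∧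
      B k ^ n k ≤ (M k).leadingCoeff ∧ (M k).supNorm ≤ B k ^ (n k + 2) ∧ aeval (α k) (M k) = 0 ∧
      1 ≤ B k ^ 2 ^ e k * (ξ - α k) ∧ B k ^ 2 ^ e k * (ξ - α k) ≤ B k ∧
      1 ≤ B k ^ 2 ^ e k * |aeval ξ (M k)| ∧ B k ^ 2 ^ e k * |aeval ξ (M k)| ≤ B k ^ 2

namespace Dt
variable (d : Dt)

def Dig (g ρ : ℕ → ℕ) : Prop := ∀ r, ρ r ≤ r ∧
    r ≤ 2 * ρ r ∧ (∀ k, d.σ k < ρ r → d.σ k + (2 * k + 2 + d.e k) < ρ r) ∧
    (∀ k, d.σ k ≤ r → d.σ k ≤ ρ r) ∧ ∀ ν, 2 ≤ ν →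
    d.σ (2 ^ (ν + 3)) ≤ r → ¬ d.sharp r ν → ZE (2 ^ (ν + 3) * 2 ^ (r - ρ r)) (2 ^ (ν + 3))
      (20 * (2 ^ (ν + 3) * 2 ^ (r - ρ r) * 2 ^ (ν + 3)))
      ((d.y g (ρ r) (r + 2 ^ (ν + 3))).map (Int.castRingHom ℚ))

lemma digits2 {ι : Type*} (cond : ι → Prop) (ρ' R D m T δ : ι → ℕ) (act : ℕ → Finset ι)
    (hact : ∀ c i, cond c → ρ' c ≤ i → i < R c → c ∈ act i)
    (hG : ∀ i, ∑ c ∈ act i, δ c ≤ 2 ^ (12 * i + 5))
    (hδ : ∀ c, cond c → (D c + 1) * (m c + 1) * (2 * m c) ≤ δ c)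
    (W : ∀ c, cond c → ∃ g, ZE (D c) (m c) (T c) ((d.y g (ρ' c) (R c)).map (Int.castRingHom ℚ))) :
    ∃ g ρ : ℕ → ℕ, (∀ i, 1 ≤ g i ∧ g i ≤ 2 ^ (12 * i + 7)) ∧ d.Dig g ρ ∧
      ∀ c, cond c → ZE (D c) (m c) (T c) ((d.y g (ρ' c) (R c)).map (Int.castRingHom ℚ)) := by
  choose ρ r1 r2 r3 r4 r5 using d.rho2
  refine (d.dg (ι := (ℕ × ℕ) ⊕ ι) (Sum.elim (fun c => 2 ≤ c.2 ∧ d.σ (2 ^ (c.2 + 3)) ≤ c.1 ∧
    ¬ d.sharp c.1 c.2) cond) (Sum.elim (fun c => ρ c.1) ρ')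
    (Sum.elim (fun c => c.1 + 2 ^ (c.2 + 3)) R)
    (Sum.elim (fun c => 2 ^ (c.2 + 3) * 2 ^ (c.1 - ρ c.1)) D) (Sum.elim (fun c => 2 ^ (c.2 + 3)) m)
    (Sum.elim (fun c => 20 * (2 ^ (c.2 + 3) * 2 ^ (c.1 - ρ c.1) * 2 ^ (c.2 + 3))) T)
    (Sum.elim (fun c => 2 ^ (4 * c.1 + 4)) δ)
    (fun i => (range (2 * i + 1) ×ˢ range (2 * i + 1)).disjSum (act i)) ?_ (fun i => ?_) ?_ ?_).imp
    fun g ⟨g1, g2⟩ => ⟨ρ, g1, fun r => ⟨r1 r, r2 r, r3 r, r5 r, fun ν a b c =>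
      g2 (.inl (r, ν)) ⟨a, b, c⟩⟩, fun c => g2 (.inr c)⟩
  · rintro (c | c) i h a b
    · have := r2 c.1
      have := d.mono.id_le (2 ^ (c.2 + 3))
      have : c.2 + 3 < 2 ^ (c.2 + 3) := Nat.lt_two_pow_self
      simp at *; omega
    simpa using hact c i h a b
  · rw [sum_disjSum]
    refine (add_le_add (sum_le_card_nsmul _ _ (2 ^ (8 * i + 4)) fun c hc =>
      Nat.pow_le_pow_right two_pos (by simp at hc; omega)) (hG i)).trans_lt ?_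
    have : i < 2 ^ i := Nat.lt_two_pow_self
    calc _ = (2 * i + 1) * (2 * i + 1) * 2 ^ (8 * i + 4) + 2 ^ (12 * i + 5) := by simp
      _ ≤ (2 * 2 ^ i) * (2 * 2 ^ i) * 2 ^ (10 * i + 4) + 2 ^ (12 * i + 5) := by gcongr <;> omega
      _ = 3 * 2 ^ (12 * i + 5) := by ring
      _ < 4 * 2 ^ (12 * i + 5) := by gcongr; norm_num
      _ = _ := by ring
  · rintro (c | c) h
    swap; · exact hδ c h
    have m1 : 2 ^ (c.2 + 3) < 2 ^ c.1 := ((d.mono.id_le _).trans h.2.1).trans_lt Nat.lt_two_pow_self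
    have m2 : 2 ^ (c.1 - ρ c.1) ≤ 2 ^ c.1 := Nat.pow_le_pow_right two_pos (by omega)
    calc _ ≤ (2 ^ c.1 * 2 ^ c.1 + 2 ^ c.1 * 2 ^ c.1) * 2 ^ c.1 * (2 * 2 ^ c.1) := by
          simp only [Sum.elim_inl]
          gcongr; exacts [Nat.one_le_iff_ne_zero.mpr (by positivity), m1]
      _ = 2 ^ (4 * c.1 + 2) := by ring
      _ ≤ _ := Nat.pow_le_pow_right two_pos (by omega)
  rintro (c | c) h
  exacts [d.wit h.1 h.2.1 (r1 _) (r4 _) h.2.2, W c h]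

theorem mainG {g ρ : ℕ → ℕ} (hg : ∀ i, 1 ≤ g i ∧ g i ≤ 2 ^ (12 * i + 7)) (H : d.Dig g ρ) {ξ : ℝ}
    (o : ℕ → ℝ) (o0 : o 0 = 0) (ho : ∀ k, ∃ q : ℤ, (q : ℝ) = 2 ^ 2 ^ d.σ k * o k ∧ 3 ∣ q)
    (hξ : ∀ k R, R + 2 ≤ d.σ (k + 1) → |ξ - o k - d.S g (R + 1)| ≤ τ R) :
    ∃ M B α, Good2 d.n d.e ξ M B α := by
  have hn := d.hn
  have s1 := (d.hσ (0 + 1)).2.1
  have xh : |ξ| ≤ 1 / 2 := by simpa [S, d.it_small, o0] using (hξ 0 0 (by omega)).trans (τ_le 0)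
  have xp : 0 < ξ := by
    have e : d.S g 11 = 3 * g 10 * τ 10 := by
      rw [S, sum_range_succ, sum_eq_zero fun i hi => by simp [d.it_small (mem_range.mp hi)], it, cf,
        if_pos ⟨le_rfl, fun k => by have := d.hσ k; omega⟩, d.W_ne fun k => by have := d.hσ k; omega]
      simp [map_ofNat]
    have := abs_le.mp (hξ 0 10 (by omega))
    have g1 : (1 : ℝ) ≤ g 10 := by exact_mod_cast (hg 10).1
    nlinarith [τ_pos 10]
  choose p α p1 p2 p3 p4 p5 p6 p7 using fun k => d.win2 hg k (ho k) xh (hξ k)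
  have m : ∀ k, mm (MP (2 ^ d.σ k) (2 ^ (d.σ k + (k + 1))) (d.n k) (p k)) ≤
      (2 ^ 2 ^ (d.σ k + (k + 1))) ^ (d.n k + 1) ∧ d.n k ≤ 2 ^ (d.σ k + (k + 1)) := fun k => by
    obtain ⟨-, s1, s2, -⟩ := d.hσ k
    have h1 := Nat.pow_le_pow_right two_pos (show d.σ k + 1 ≤ d.σ k + (k + 1) by omega)
    have h2 : d.σ k < 2 ^ d.σ k := Nat.lt_two_pow_self
    refine ⟨MP_mm (p2 k) ?_ (by have := hn k; omega) (by omega), by omega⟩
    exact_mod_cast ((Nat.mul_le_mul_left _ (Nat.pow_le_pow_left s2 2)).trans (pw2 (c := 5) (a := 10)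
      _ (by omega) (by omega) (by norm_num))).trans Nat.lt_two_pow_self.le
  refine ⟨fun k => MP (2 ^ d.σ k) (2 ^ (d.σ k + (k + 1))) (d.n k) (p k),
    fun k => 2 ^ 2 ^ (d.σ k + (k + 1)), α, xp, (abs_le.mp xh).2,
    fun ν hν => ?_, fun k => ?_⟩
  · have N4 : 4 ≤ 2 ^ ν := Nat.pow_le_pow_right two_pos hν
    have e8 : 2 ^ (ν + 3) = 8 * 2 ^ ν := by ring
    obtain ⟨c, c0, hc⟩ := engine0 ξ (N := 2 ^ ν) (by omega) (1281 * 2 ^ ν) (2 ^ (ν + 3) + 1)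
      (fun Q => ∃ k, Q = MP (2 ^ d.σ k) (2 ^ (d.σ k + (k + 1))) (d.n k) (p k))
      (fun r => 2 ^ (2 ^ ν * 2 ^ (d.σ (2 ^ (ν + 3)) + r))) (le_self_pow₀ one_le_two (by positivity))
      (fun r => by rw [← pow_mul]; ring) fun s => by
        obtain ⟨r', l1, l2, j, j1, j2⟩ : ∃ r, s ≤ r ∧ r ≤ s + (2 ^ (ν + 3) + 1) ∧ ∃ j,
            d.σ j ≤ d.σ (2 ^ (ν + 3)) + r ∧ d.σ (2 ^ (ν + 3)) + r + 2 ^ (ν + 3) + 1 ≤ d.σ (j + 1) := by
          have ex : ∃ j, d.σ (2 ^ (ν + 3)) + s < d.σ (j + 1) :=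
            ⟨_, (Nat.lt_succ_self _).trans_le (d.mono.id_le _)⟩
          have j2 := Nat.find_spec ex
          have j3 : 2 ^ (ν + 3) ≤ Nat.find ex :=
            Nat.lt_succ_iff.mp (d.mono.lt_iff_lt.mp ((Nat.le_add_right _ _).trans_lt j2))
          have j1 := not_lt.mp (Nat.find_min ex (m := Nat.find ex - 1) (by omega))
          rw [Nat.sub_add_cancel (by omega)] at j1
          generalize Nat.find ex = j at *
          by_cases c : d.σ (2 ^ (ν + 3)) + s + 2 ^ (ν + 3) + 1 ≤ d.σ (j + 1)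
          · exact ⟨s, le_rfl, by omega, j, j1, c⟩
          have := d.hσ (j + 1)
          exact ⟨d.σ (j + 1) - d.σ (2 ^ (ν + 3)), by omega, by omega, j + 1, by omega, by omega⟩
        refine ⟨r', l1, l2, ?_⟩
        set r := d.σ (2 ^ (ν + 3)) + r' with hr
        obtain ⟨r1, r2, r3, r5, r4⟩ := H r
        by_cases s : d.sharp r ν
        · obtain ⟨k, k1, k2, k3, k4⟩ := s
          obtain ⟨d1, d2⟩ := MP_deg (2 ^ d.σ k) (2 ^ (d.σ k + (k + 1))) (n := d.n k)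
            (by have := hn k; omega) (p k)
          have q := p7 k
          have q2 := (m k).1
          rw [τ, ← add_assoc _ (k + 1), pow_add 2 _ (d.e k), ← cst] at q
          rw [e8, pow_add 2 (k + 1), pow_succ'] at k4
          have e1 : 2 ^ (d.σ k + (k + 1)) = 2 ^ d.σ k * (2 * 2 ^ k) := by ring
          have e2 : 2 ^ r = 2 ^ d.σ k * 2 ^ (r - d.σ k) := by rw [← pow_add, Nat.add_sub_cancel' k1]
          have q3 : ∃ k', MP (2 ^ d.σ k) (2 ^ (d.σ k + (k + 1))) (d.n k) (p k) =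
            MP (2 ^ d.σ k') (2 ^ (d.σ k' + (k' + 1))) (d.n k') (p k') := ⟨k, rfl⟩
          generalize MP (2 ^ d.σ k) (2 ^ (d.σ k + (k + 1))) (d.n k) (p k) = M at *
          refine ⟨M, leadingCoeff_ne_zero.mp (d2 ▸ by positivity), by omega, ?_⟩
          rw [d1, e2, ← and_assoc]
          rw [e1] at q q2
          exact ⟨shp (by have := hn k; omega) (by omega) (e8 ▸ k3) k4 (mahlerMeasure_nonneg _)
            q2 q, .inr q3⟩
        have z := r4 ν hν (by omega) s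
        have := d.hσ (2 ^ (ν + 3))
        have := d.mono.id_le (2 ^ (ν + 3))
        rw [e8] at z
        obtain ⟨q, q1, -⟩ := ho j
        exact (d.gen2 hg (o := o j) ⟨2 ^ (2 ^ ρ r - 2 ^ d.σ j) * q, by
          push_cast; rw [q1, ← mul_assoc, ← pow_add, Nat.sub_add_cancel
            (Nat.pow_le_pow_right two_pos (r5 j j1))]⟩ xh (fun R h => hξ j R (by omega)) N4 (by omega) r1 r2 (by simp only [id] at this; omega) r3 z).imp
          fun Q ⟨a, b, c, e, f⟩ => ⟨a, b, c, e, .inl f⟩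
    exact ⟨_, c, c0, fun P a b h => hc P a b (by rintro _ ⟨k, rfl⟩; exact h k)⟩
  obtain ⟨d1, d2⟩ := MP_deg (2 ^ d.σ k) (2 ^ (d.σ k + (k + 1))) (n := d.n k)
    (by have := hn k; omega) (p k)
  obtain ⟨s0, s1, -⟩ := d.hσ k
  set B : ℝ := 2 ^ 2 ^ (d.σ k + (k + 1)) with hB
  have eB : B ^ 2 ^ d.e k * τ (d.σ k + (k + 1 + d.e k)) = 1 := by
    rw [hB, ← pow_mul, ← pow_add, add_assoc]; exact mul_inv_cancel₀ (by positivity)
  have u : ∀ x y : ℝ, x ≤ τ (d.σ k + (k + 1 + d.e k)) * y → B ^ 2 ^ d.e k * x ≤ y := fun x y h =>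
    (mul_le_mul_of_nonneg_left h (by positivity)).trans_eq (by rw [← mul_assoc, eB, one_mul])
  refine ⟨fun j hj => MP_irr _ (hn k) hj (p1 k) (b9 s0 (by omega)), d1, ?_, ?_, ?_, p3 k,
    eB ▸ by gcongr; exact p4 k, u _ _ (p5 k), eB ▸ by gcongr; exact p6 k, u _ _ (p7 k)⟩
  · beta_reduce
    exact_mod_cast le_trans (by omega) (Nat.lt_two_pow_self.trans Nat.lt_two_pow_self).le
  · rw [d2]; push_cast
    exact le_mul_of_one_le_left (by positivity) (one_le_pow₀ one_le_two)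
  refine (sup_le _).trans ?_
  rw [d1, pow_succ' B]
  exact mul_le_mul (pow_le_pow_right₀ one_le_two (m k).2) (m k).1 (mahlerMeasure_nonneg _)
    (by positivity)

end Dt

/-- a Good2 number for the T-number parameters is a T-number -/
theorem tnum {ξ : ℝ} {M : ℕ → ℤ[X]} {B α : ℕ → ℝ} (G : Good2 (fun k => 18 * 8 ^ k.unpair.1 + 1)
    (fun k => 7 * k.unpair.1 + 10) ξ M B α) : (∀ N, 1 ≤ N → ∃ v, Up ξ N v) ∧
    ∀ m : ℝ, ∀ K, ∃ n : ℕ, K ≤ n ∧ ∃ w, m * (n + 1) < w ∧ (wS n ξ w).Infinite := by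
  have B1 : ∀ k, 1 ≤ B k := fun k => by linarith [(G.2.2.2 k).2.2.1, k.cast_nonneg (α := ℝ)]
  refine ⟨fun N hN => ?_, fun m K => ?_⟩
  · obtain ⟨v, c, c0, hc⟩ := G.2.2.1 (N + 2) (by omega)
    refine ⟨v + 2 ^ (7 * N + 10), .of (c := min c 1) (by positivity) fun P a b => ?_⟩
    have m1 := mm1 a.ne_zero
    by_cases h : ∃ k, P ∣ M k
    · obtain ⟨k, h⟩ := h
      obtain ⟨b0, b3, -, b1, -, -, -, -, b2, -⟩ := G.2.2.2 k
      obtain ⟨a1, a2, a3⟩ := asc (a.associated_of_dvd (by simpa using b0 1 one_pos) h) ξ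
      have := Nat.lt_pow_self (n := k.unpair.1) (show 1 < 8 by norm_num)
      have := B1 k
      rw [cst, a3]
      refine (min_le_right _ _).trans (b2.trans (mul_le_mul_of_nonneg_right ?_ (abs_nonneg _)))
      exact (pow_le_pow_left₀ (by positivity) ((le_self_pow₀ this (by simp)).trans (b1.trans
        ((le_abs_self _).trans (a2 ▸ lc_le P)))) _).trans (pow_le_pow_right₀ m1 (le_add_left
          (Nat.pow_le_pow_right two_pos (by simp only at b3 ⊢; omega))))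
    exact (min_le_left _ _).trans ((hc P a (b.trans (by linarith [Nat.lt_two_pow_self (n := N + 2)]))
      (by simpa using h)).trans (by gcongr; exact Nat.le_add_right _ _))
  obtain ⟨j, hj⟩ := pow_unbounded_of_one_lt (max (2 * m) K) one_lt_two
  obtain ⟨j1, j2⟩ := max_lt_iff.mp hj
  have a : (1 : ℝ) ≤ 2 ^ j := one_le_pow₀ one_le_two
  have e : (8 : ℝ) ^ j = (2 ^ j) ^ 3 := by rw [← pow_mul, mul_comm, pow_mul]; norm_num
  have j3 : K < 2 ^ j := by exact_mod_cast j2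
  have j4 := Nat.pow_le_pow_left (show 2 ≤ 8 by norm_num) j
  refine ⟨18 * 8 ^ j + 1, by omega, 2 ^ j * (18 * 8 ^ j + 1 : ℕ), ?_,
    lowW (a := 18 * 8 ^ j + 1 + 2) (E := 2 ^ (7 * j + 10)) (by positivity) ?_ (le_trans (by norm_num)
      (Nat.pow_le_pow_right two_pos (show 2 ≤ _ by omega))) fun K => ?_⟩
  · push_cast; nlinarith [one_le_pow₀ (n := j) (show (1 : ℝ) ≤ 8 by norm_num)]
  · push_cast
    rw [e, pow_add, mul_comm 7, pow_mul]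
    generalize (2 : ℝ) ^ j = x at *
    have b1 := one_le_pow₀ (n := 3) a
    have b3 := one_le_pow₀ (n := 7) a
    calc _ ≤ (x * (19 * x ^ 3)) * (21 * x ^ 3) + 2 * x ^ 7 := by gcongr <;> linarith
      _ ≤ _ := by nlinarith
  obtain ⟨-, a1, a2, -, a3, -, -, -, a7, a8⟩ := G.2.2.2 (Nat.pair j ⌈K⌉₊)
  simp only [Nat.unpair_pair] at a1 a3 a7 a8
  have := B1 (Nat.pair j ⌈K⌉₊)
  exact ⟨_, _, by linarith [Nat.ceil_le.mp (Nat.right_le_pair j ⌈K⌉₊)], a1.le, a3,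
    (mul_pos_iff_of_pos_left (by positivity)).mp (one_pos.trans_le a7), a8⟩

end Pool.Agent.H46.Tn
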