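import Pool.Agent.H46.Tm.B
set_option autoImplicit false
open Polynomial Finset Filter
namespace Pool.Agent.H46.Tn
open Wx

lemma τ_sq (i : ℕ) : τ (i + 1) = τ i ^ 2 := by rw [← τ_pow (Nat.le_succ i)]; simp

lemma jump (x : ℝ) {b i : ℕ} (hb : 2 ≤ b) (hi : 3 ≤ i) : ∃ (j p : ℤ) (N : ℕ), 3 ∣ j ∧
    |j * τ (i + 1)| ≤ τ i / 4 ∧ 2 * τ (i + 1) ≤ x + j * τ (i + 1) - p / b ^ N ∧
    x + j * τ (i + 1) - p / b ^ N ≤ 5 * τ (i + 1) ∧ 8 ≤ b ^ N * τ i ∧ b ^ N * τ i ≤ 8 * b := by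
  have t0 := τ_pos i
  have t1 := τ_pos (i + 1)
  have t2 : τ i ≤ 1 / 256 := (τ_anti hi).trans_eq (by norm_num [τ])
  have b2 : (2 : ℝ) ≤ b := by exact_mod_cast hb
  obtain ⟨n, n1, n2⟩ := exists_nat_pow_near (x := 8 / τ i) (y := (b : ℝ))
    ((le_div_iff₀ t0).mpr (by linarith)) (by linarith)
  rw [le_div_iff₀ t0] at n1
  rw [div_lt_iff₀ t0] at n2
  have B0 : (0 : ℝ) < b ^ (n + 1) := by positivity
  set p := ⌈x * b ^ (n + 1)⌉
  have p1 : x ≤ p / b ^ (n + 1) := (le_div_iff₀ B0).mpr (Int.le_ceil _)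
  have p2 : p / b ^ (n + 1) ≤ x + τ i / 8 := by
    rw [div_le_iff₀ B0]; nlinarith [Int.ceil_lt_add_one (x * b ^ (n + 1))]
  set u := (p / b ^ (n + 1) - x) / (3 * τ (i + 1)) + 2 / 3 with hu
  have e : 3 * u * τ (i + 1) = p / b ^ (n + 1) - x + 2 * τ (i + 1) := by rw [hu]; field_simp
  have j1 := mul_le_mul_of_nonneg_right (Int.le_ceil u) t1.le
  have j2 := mul_le_mul_of_nonneg_right (Int.ceil_lt_add_one u).le t1.le
  have t3 : τ (i + 1) ≤ τ i / 256 := by rw [τ_sq]; nlinarith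
  refine ⟨3 * ⌈u⌉, p, n + 1, dvd_mul_right _ _, abs_le.mpr ⟨?_, ?_⟩, ?_, ?_, n2.le, ?_⟩
  · push_cast; linarith
  · push_cast; linarith
  · push_cast; linarith
  · push_cast; linarith
  rw [pow_succ]; nlinarith

lemma nn {ξ : ℝ} {b : ℕ} (hb : 2 ≤ b) (h : ∀ K, ∃ N, K ≤ N ∧ ∃ p : ℤ, 0 ≤ b ^ N * ξ - p ∧
    b ^ N * (b ^ N * ξ - p) ≤ b ^ 11) : ¬ Tendsto (fun N : ℕ =>
      (((range N).filter fun j => ⌊ξ * b ^ (j + 1)⌋ % b = 0).card : ℝ) / N) atTop (nhds (1 / b)) :=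
  fun t => by
  have b2 : (2 : ℝ) ≤ b := by exact_mod_cast hb
  obtain ⟨K, hK⟩ := Metric.tendsto_atTop.mp t (1 / 10) (by norm_num)
  obtain ⟨N, hN, p, p1, p2⟩ := h (K + 100)
  obtain ⟨L, rfl⟩ : ∃ L, N = L + 12 := ⟨N - 12, by omega⟩
  have k1 := (abs_lt.mp (hK (L + 12) (by omega))).1
  have k2 := (abs_lt.mp (hK (L + 12 + L) (by omega))).2
  have k3 : ((range (L + 12)).filter fun j => ⌊ξ * b ^ (j + 1)⌋ % b = 0).card + L ≤
      ((range (L + 12 + L)).filter fun j => ⌊ξ * b ^ (j + 1)⌋ % b = 0).card := by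
    simp only [card_filter]
    rw [sum_range_add _ (L + 12)]
    refine Nat.add_le_add_left (le_of_eq ?_) _
    rw [sum_congr rfl fun j hj => if_pos ?_, sum_const, card_range, smul_eq_mul, mul_one]
    have : ⌊ξ * b ^ (L + 12 + j + 1)⌋ = b * (p * b ^ j) := by
      have q : (b : ℝ) ^ (j + 1) * (b ^ (L + 12) * ξ - p) < 1 := by
        refine lt_of_mul_lt_mul_left ?_ (by positivity : (0 : ℝ) ≤ b ^ (L + 12))
        rw [mul_left_comm, mul_one]
        refine (mul_le_mul_of_nonneg_left p2 (by positivity)).trans_lt ?_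
        rw [← pow_add]
        exact pow_lt_pow_right₀ (by linarith) (by have := mem_range.mp hj; omega)
      have q2 := mul_nonneg (by positivity : (0 : ℝ) ≤ b ^ (j + 1)) p1
      rw [Int.floor_eq_iff]
      push_cast
      constructor <;> ring_nf at q q2 ⊢ <;> linarith
    rw [this, Int.mul_emod_right]
  have k4 : (1 : ℝ) / b ≤ 1 / 2 := by gcongr
  have L0 : (88 : ℝ) ≤ L := by exact_mod_cast (by omega : 88 ≤ L)
  rw [lt_sub_iff_add_lt, lt_div_iff₀ (by positivity)] at k1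
  rw [sub_lt_iff_lt_add, div_lt_iff₀ (by positivity)] at k2
  replace k3 := (Nat.cast_le (α := ℝ)).mpr k3
  push_cast at k1 k2 k3
  nlinarith

theorem nonnormal : ∃ ξ M B α, Good2 (fun k => 18 * 8 ^ k.unpair.1 + 1)
    (fun k => 7 * k.unpair.1 + 10) ξ M B α ∧ ∀ b : ℕ, 2 ≤ b → ∀ K, ∃ N, K ≤ N ∧ ∃ p : ℤ,
      0 ≤ b ^ N * ξ - p ∧ b ^ N * (b ^ N * ξ - p) ≤ b ^ 11 := by
  obtain ⟨d, d1, d2⟩ := Dt_ex (fun k => 18 * 8 ^ k.unpair.1 + 1) (fun k => 7 * k.unpair.1 + 10)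
    (fun k => by have := Nat.one_le_pow k.unpair.1 8 (by norm_num); omega) (by omega)
  rw [← d1, ← d2]
  obtain ⟨g, ρ, hg, H, -⟩ := d.digits2 (ι := Empty) (fun _ => False) 0 0 0 0 0 0 (fun _ => ∅)
    (by simp) (by simp) (by simp) (by simp)
  obtain ⟨ξ, hξ⟩ := d.xi2 hg
  obtain ⟨θ, hθ⟩ : ∃ θ : ℕ → ℕ, ∀ k, d.σ (k + 1) = θ k + 2 :=
    ⟨fun k => d.σ (k + 1) - 2, fun k => by have := d.hσ (k + 1); beta_reduce; omega⟩
  have θm : StrictMono θ := strictMono_nat_of_lt_succ fun k => by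
    have := d.mono (Nat.lt_succ_self (k + 1)); rw [hθ, hθ] at this; omega
  choose j p N j1 j2 j3 j4 j5 j6 using fun (k : ℕ) (x : ℝ) => jump x (b := k.unpair.1 + 2)
    (i := θ k) (by omega) (by have := d.hσ (k + 1); rw [hθ] at this; omega)
  let o : ℕ → ℝ := fun k => k.rec 0 fun k s => s + j k (s + d.S g (θ k + 2)) * τ (θ k + 1)
  set u : ℕ → ℝ := fun k => j k (o k + d.S g (θ k + 2)) * τ (θ k + 1) with hu
  have os : ∀ k, o (k + 1) = o k + u k := fun k => rfl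
  have oe : ∀ k, o k = ∑ i ∈ range k, u i := fun k => by
    induction k with
    | zero => rfl
    | succ k ih => rw [os, ih, sum_range_succ]
  have b : ∀ k i, ‖u (i + k)‖ ≤ τ (θ k) / 2 / 2 / 2 ^ i := fun k i => (j2 _ _).trans (by
    induction i with
    | zero => simp; linarith
    | succ i ih =>
      have := τ_anti (θm (show i + k < i + 1 + k by omega))
      rw [τ_sq] at this
      rw [pow_succ, ← div_div]
      nlinarith [τ_le (θ (i + k)), τ_pos (θ (i + k))])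
  have s : Summable u := .of_norm_bounded (summable_geometric_two' _) (b 0)
  have t : ∀ k R, R + 2 ≤ d.σ (k + 1) → |ξ + ∑' i, u i - o k - d.S g (R + 1)| ≤ τ R :=
    fun k R h => by
      have := tsum_of_norm_bounded (hasSum_geometric_two' _) (b k)
      have k1 := τ_anti (show R ≤ θ k by rw [hθ] at h; omega)
      rw [← s.sum_add_tsum_nat_add k, ← oe, abs_le]
      constructor <;> linarith [abs_le.mp this, abs_le.mp (hξ R)]
  obtain ⟨M, B, α, G⟩ := d.mainG hg H o rfl (fun k => by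
    induction k with
    | zero => exact ⟨0, by simp [o]⟩
    | succ k ih =>
      obtain ⟨q, q1, q2⟩ := ih
      refine ⟨2 ^ (2 ^ d.σ (k + 1) - 2 ^ d.σ k) * q + j k (o k + d.S g (θ k + 2)) *
        2 ^ (2 ^ d.σ (k + 1) - 2 ^ (θ k + 1)), ?_, dvd_add (q2.mul_left _) ((j1 _ _).mul_right _)⟩
      push_cast
      rw [os, mul_add, q1, ← mul_assoc, ← pow_add, Nat.sub_add_cancel (Nat.pow_le_pow_right two_pos
        (d.mono (Nat.lt_succ_self k)).le), ← τ_int (by rw [hθ]; omega), hu]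
      ring) t
  refine ⟨_, M, B, α, G, fun c hc K => ?_⟩
  obtain ⟨c, rfl⟩ := Nat.exists_eq_add_of_le' hc
  set k := Nat.pair c ((c + 2) ^ K)
  have a1 := abs_le.mp (t (k + 1) (θ k + 1) (by have := θm (lt_add_one k); rw [hθ]; omega))
  have a3 := j3 k (o k + d.S g (θ k + 2))
  have a4 := j4 k (o k + d.S g (θ k + 2))
  have a5 := j5 k (o k + d.S g (θ k + 2))
  have a6 := j6 k (o k + d.S g (θ k + 2))
  rw [show k.unpair.1 = c by simp [k]] at a3 a4 a5 a6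
  set n := N k (o k + d.S g (θ k + 2))
  set q := p k (o k + d.S g (θ k + 2))
  set β : ℝ := ((c + 2 : ℕ) : ℝ)
  have β2 : 2 ≤ β := by simp [β]
  have t0 := τ_pos (θ k)
  have e : β ^ n * (ξ + ∑' i, u i) - q = β ^ n * (ξ + ∑' i, u i - q / β ^ n) := by field_simp
  rw [os] at a1
  refine ⟨n, ?_, q, by rw [e]; exact mul_nonneg (by positivity) (by linarith [τ_pos (θ k + 1)]), ?_⟩
  · refine (pow_le_pow_iff_right₀ (show 1 < β by linarith)).mp ?_
    have k1 := τ_mul (i := θ k) (k := θ k) Nat.lt_two_pow_self.le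
    have k2 : β ^ K ≤ 2 ^ θ k := by
      simp only [β]
      exact_mod_cast ((Nat.right_le_pair c _).trans (θm.id_le k)).trans Nat.lt_two_pow_self.le
    refine le_of_mul_le_mul_right (le_trans ?_ a5) t0
    nlinarith
  calc _ ≤ β ^ n * (β ^ n * (6 * τ (θ k + 1))) := by rw [e]; gcongr; linarith
    _ = 6 * (β ^ n * τ (θ k)) ^ 2 := by rw [τ_sq]; ring
    _ ≤ 8 * (8 * β) ^ 2 := by gcongr; norm_num
    _ = 2 ^ 9 * β ^ 2 := by ring
    _ ≤ β ^ 9 * β ^ 2 := by gcongr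
    _ = _ := by ring

lemma tE {ξ : ℝ} (h1 : ∀ N, 1 ≤ N → ∃ v, Up ξ N v)
    (h2 : ∀ m : ℝ, ∀ K, ∃ n : ℕ, K ≤ n ∧ ∃ w, m * (n + 1) < w ∧ (wS n ξ w).Infinite) :
    (∀ n, 1 ≤ n → wE n ξ < ⊤) ∧ limsup (fun n : ℕ => wE n ξ / n) atTop = ⊤ :=
  ⟨fun n h => (h1 n h).elim fun _ u => u.wE.1.trans_lt (EReal.coe_lt_top _),
    EReal.eq_top_iff_forall_lt _ |>.mpr fun y => (EReal.coe_lt_coe ((le_max_left y 0).trans_lt
      (lt_add_one _))).trans_le (le_lsup (by positivity) fun K => (h2 _ K).imp fun _ ⟨a, _, b, c⟩ =>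
        ⟨a, (EReal.coe_le_coe b.le).trans (le_wE c)⟩).1⟩

end Pool.Agent.H46.Tn
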