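import Pool.Agent.H46.Tm.B
set_option autoImplicit false
open Polynomial Finset
namespace Pool.Agent.H46.Tn
open Wx

lemma ze_one {D T : ℕ} {y : ℚ[X]} (h : ∀ p q : ℚ[X], p.natDegree ≤ D → q.natDegree ≤ D →
    X ^ T ∣ p + q * y → p = 0 ∧ q = 0) : ZE D 1 T y := fun B a b c => by
  rw [eq_X_add_C_of_natDegree_le_one a] at c ⊢
  obtain ⟨h1, h2⟩ := h _ _ (b 0) (b 1) (by simpa [add_comm] using c)
  simp [h1, h2]

noncomputable def KK (R : Type*) [CommRing R] (n : ℕ) : R[X] := ∑ i ∈ range n, X ^ 2 ^ i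

lemma k2 {D n : ℕ} (h : 2 * D + 2 ≤ 2 ^ n) {p q : (ZMod 2)[X]} (hp : p.natDegree ≤ D)
    (hq : q.natDegree ≤ D) (d : X ^ (2 * D + 2) ∣ p + q * KK _ n) : p = 0 ∧ q = 0 := by
  have t : (2 : (ZMod 2)[X]) = 0 := CharTwo.two_eq_zero
  have e : KK (ZMod 2) n ^ 2 = KK _ n + X + X ^ 2 ^ n := by
    clear h d
    induction n with
    | zero => simp [KK, CharTwo.add_self_eq_zero]
    | succ n ih =>
      rw [KK, sum_range_succ, ← KK, pow_succ 2, pow_mul]
      linear_combination ih + (KK (ZMod 2) n * X ^ 2 ^ n) * t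
  have z : q ^ 2 * X = p * (p + q) := by
    refine sub_eq_zero.mp (eq_zero_of_dvd_of_natDegree_lt (p := X ^ (2 * D + 2)) ?_ ?_)
    · convert dvd_add (d.mul_right (p + q * KK _ n + q)) ((pow_dvd_pow X h).mul_left (q ^ 2)) using 1
      linear_combination -q ^ 2 * e - (p ^ 2 + p * q + p * q * KK (ZMod 2) n +
        q ^ 2 * KK (ZMod 2) n + q ^ 2 * X ^ 2 ^ n) * t
    have := natDegree_add_le_of_degree_le hp hq
    rw [natDegree_X_pow]
    exact Nat.lt_succ_of_le (by compute_degree; omega)
  obtain rfl | q0 := eq_or_ne q 0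
  · simpa using z
  have n0 : p * (p + q) ≠ 0 := z ▸ by simp [q0]
  have := congrArg natDegree z
  rw [natDegree_mul (left_ne_zero_of_mul n0) (right_ne_zero_of_mul n0), natDegree_mul_X (by simpa),
    natDegree_pow] at this
  by_cases l : q.natDegree < p.natDegree
  · rw [natDegree_add_eq_left_of_natDegree_lt l] at this; omega
  have := natDegree_add_le_of_degree_le (not_lt.mp l) le_rfl
  omega

lemma kem {D n : ℕ} (h : 2 * D + 2 ≤ 2 ^ n) {y : ℤ[X]}
    (hy : X ^ (2 * D + 2) ∣ y.map (Int.castRingHom (ZMod 2)) - KK _ n) :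
    ZE D 1 (2 * D + 2) (y.map (Int.castRingHom ℚ)) := by
  have a : ∀ m, ∀ p q : ℤ[X], p.natDegree ≤ D → q.natDegree ≤ D → X ^ (2 * D + 2) ∣ p + q * y →
      C (2 ^ m) ∣ p ∧ C (2 ^ m) ∣ q := fun m => by
    induction m with
    | zero => simp
    | succ m ih =>
    intro p q hp hq d
    have f : ∀ p : ℤ[X], p.map (Int.castRingHom (ZMod 2)) = 0 → C 2 ∣ p := fun p k =>
      (C_dvd_iff_dvd_coeff _ _).mpr fun i => (ZMod.intCast_zmod_eq_zero_iff_dvd _ 2).mp (by
        simpa using congrArg (coeff · i) k)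
    obtain ⟨⟨p, rfl⟩, q, rfl⟩ := (k2 h (natDegree_map_le.trans hp) (natDegree_map_le.trans hq) (by
      have := Polynomial.map_dvd (Int.castRingHom (ZMod 2)) d
      simp only [Polynomial.map_pow, map_X, Polynomial.map_add, Polynomial.map_mul] at this
      convert dvd_sub this (hy.mul_left (q.map (Int.castRingHom (ZMod 2)))) using 1
      ring)).imp (f p) (f q)
    rw [natDegree_C_mul two_ne_zero] at hp hq
    rw [pow_succ', C_mul]
    exact (ih p q hp hq (X_pow_dvd_iff.mpr fun i hi => by
      simpa [mul_assoc, ← mul_add] using X_pow_dvd_iff.mp d i hi)).imp (mul_dvd_mul_left _)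
        (mul_dvd_mul_left _)
  have b : ∀ p : ℤ[X], (∀ m, C (2 ^ m) ∣ p) → p = 0 := fun p k => Polynomial.ext fun i =>
    Int.eq_zero_of_abs_lt_dvd ((C_dvd_iff_dvd_coeff _ _).mp (k (p.coeff i).natAbs) i) (by
      rw [Int.abs_eq_natAbs]; exact_mod_cast Nat.lt_two_pow_self)
  refine ze_one fun p q hp hq d => ?_
  obtain ⟨u, u0, hu⟩ := IsLocalization.integerNormalization_spec (nonZeroDivisors ℤ) p
  obtain ⟨v, v0, hv⟩ := IsLocalization.integerNormalization_spec (nonZeroDivisors ℤ) q
  rw [mem_nonZeroDivisors_iff_ne_zero] at u0 v0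
  have i := RingHom.injective_int (algebraMap ℤ ℚ)
  have := fun m => a m (v • IsLocalization.integerNormalization (nonZeroDivisors ℤ) p)
    (u • IsLocalization.integerNormalization (nonZeroDivisors ℤ) q)
    ((natDegree_smul_le _ _).trans (by
      rw [← natDegree_map_eq_of_injective i, hu]; exact (natDegree_smul_le _ _).trans hp))
    ((natDegree_smul_le _ _).trans (by
      rw [← natDegree_map_eq_of_injective i, hv]; exact (natDegree_smul_le _ _).trans hq))
    ((map_dvd_map _ i (monic_X_pow _)).mp (by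
      convert d.mul_left (u * v) using 1
      · simp
      rw [algebraMap_int_eq] at hu hv
      simp [hu, hv]; ring))
  simpa [u0, v0, IsFractionRing.integerNormalization_eq_zero_iff] using And.intro (b _ fun m => (this m).1) (b _ fun m => (this m).2)

lemma scal {D T : ℕ} {y z : ℚ[X]} {c s : ℚ} (hc : c ≠ 0) (hs : s ≠ 0)
    (e : y.comp (C s * X) = C c * z) (h : ZE D 1 T z) : ZE D 1 T y := ze_one fun p q hp hq d => by
  have n : ∀ p : ℚ[X], (p.comp (C s * X)).natDegree = p.natDegree := fun p => by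
    rw [natDegree_comp, natDegree_C_mul_X _ hs, mul_one]
  have z : ∀ p : ℚ[X], p.comp (C s * X) = 0 → p = 0 := fun p k => Polynomial.ext fun i => by
    simpa [comp_C_mul_X_coeff, hs] using congrArg (coeff · i) k
  obtain ⟨r, hr⟩ := d
  have := h (C (C c * q.comp (C s * X)) * X + C (p.comp (C s * X))) natDegree_linear_le
    (((DB_C (d := D) (by rwa [natDegree_C_mul hc, n])).mul (e := 0) (by simpa using DB_X 1)).add
      (DB_C (by rwa [n]))) ⟨C s ^ T * r.comp (C s * X), by
      have := congrArg (comp · (C s * X)) hr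
      simp only [add_comp, mul_comp, e, pow_comp, X_comp, mul_pow] at this
      simp only [eval_add, eval_mul, eval_C, eval_X]
      linear_combination this⟩
  exact ⟨z p (by simpa using congrArg (coeff · 0) this), z q (by
    simpa [hc, coeff_C] using congrArg (coeff · 1) this)⟩

lemma ze3 {n l D : ℕ} {c : ℚ} {Z : ℚ[X]} (hc : c ≠ 0) (hZ : X ∣ Z - 1) (hn : 2 ≤ n) (hl : l ≤ D)
    (ho : X ^ (2 * D + 2 - l) ∣ (MM n c).eval Z) : ZE D 1 (2 * D + 2) (X ^ l * Z) :=
  ze_one fun p q hp hq d => by
  obtain ⟨p, rfl⟩ : X ^ l ∣ p := (dvd_add_left ((dvd_mul_right _ _).mul_left _)).mp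
    ((pow_dvd_pow _ (by omega)).trans d)
  have p1 : p.natDegree ≤ D - l := by
    obtain rfl | p0 := eq_or_ne p 0
    · simp
    rw [natDegree_X_pow_mul _ p0] at hp; omega
  rw [mul_left_comm, ← mul_add, ← Nat.add_sub_cancel' (show l ≤ 2 * D + 2 by omega), pow_add,
    mul_dvd_mul_iff_left (by simp)] at d
  have s : ∀ {d} {p : ℚ[X]}, p.natDegree ≤ d →
      ((p.comp (C c⁻¹ * (X - 1))).comp (X ^ n)).support.card ≤ d + 1 := fun {d p} h =>
    (card_le_card (t := (range (d + 1)).image (n * ·)) fun i hi => by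
      rw [mem_support_iff, ← expand_eq_comp_X_pow, coeff_expand (by omega)] at hi
      split_ifs at hi with e <;> try exact absurd rfl hi
      exact mem_image.mpr ⟨i / n, mem_range.mpr (Nat.lt_succ_of_le ((le_natDegree_of_ne_zero
        hi).trans (dg1 h))), Nat.mul_div_cancel' e⟩).trans (card_image_le.trans (by simp))
  have B0 : C q * X + C p = 0 := by_contra fun B0 => nm hc hZ ((pow_dvd_pow _ (by omega)).trans ho)
    ho (fun k => B0 (by
      have := cong (n := n) hc (C q * X + C p)
      rw [hajos _ _ ?_ k, Polynomial.map_zero, sub_zero] at this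
      · exact eq_zero_of_dvd_of_natDegree_lt this (by
          rw [(MM_deg (by omega)).2]; exact natDegree_linear_le.trans_lt hn)
      have a := s hq
      have b := s p1
      simp only [comp_assoc, mul_comp, C_comp, sub_comp, X_comp, one_comp] at a b
      simp only [ka, coe_eval₂RingHom, eval₂_add, eval₂_mul, eval₂_C, eval₂_X, coe_compRingHom_apply]
      refine (card_le_card support_add).trans ((card_union_le _ _).trans ?_)
      have := card_support_mul_le (p := q.comp (C c⁻¹ * (X ^ n - 1))) (q := X)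
      rw [support_X, card_singleton] at this
      omega)) (by simpa [add_comm] using d)
  have a : p = 0 := by simpa using congrArg (coeff · 0) B0
  exact ⟨by simp [a], by simpa [coeff_C] using congrArg (coeff · 1) B0⟩

end Pool.Agent.H46.Tn
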