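import Pool.Agent.H46.Tm.D
set_option autoImplicit false
open Polynomial Finset
namespace Pool.Agent.H46.Tn
open Wx
namespace Dt
variable (d : Dt)

lemma rho3 (r : ℕ) : ∃ ρ, ρ ≤ r ∧ r ≤ 2 * ρ ∧ (∀ k, d.σ k < ρ → d.σ k + (2 * k + 2 + d.e k) < ρ) ∧
    ((∃ k, ρ = d.σ k ∧ r ≤ d.σ k + (2 * k + 2 + d.e k)) ∨
      ρ = r ∧ ∀ k, d.σ k ≤ r → d.σ k + (2 * k + 2 + d.e k) < r) := by
  by_cases h : ∃ k, d.σ k ≤ r ∧ r ≤ d.σ k + (2 * k + 2 + d.e k)
  · obtain ⟨k, h1, h2⟩ := h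
    refine ⟨d.σ k, h1, by have := d.hσ k; omega, fun j hj => ?_, .inl ⟨k, rfl, h2⟩⟩
    have := d.sep (d.mono.lt_iff_lt.mp hj); omega
  push Not at h
  exact ⟨r, le_rfl, by omega, fun k hk => h k hk.le, .inr ⟨rfl, h⟩⟩

lemma witA {D ρ R : ℕ} (h : 2 * D + 2 ≤ 2 ^ (R - ρ))
    (hf : ∀ i ∈ Ico ρ R, d.free i ∧ X ^ (2 * D + 2) ∣ d.W i) :
    ZE D 1 (2 * D + 2) ((d.y 1 ρ R).map (Int.castRingHom ℚ)) := kem h (by
  rw [y, sum_Ico_eq_sum_range, Polynomial.map_sum, KK, ← sum_sub_distrib]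
  refine dvd_sum fun i hi => ?_
  obtain ⟨f, q, e⟩ := hf (ρ + i) (by simp at hi ⊢; omega)
  have : (3 : (ZMod 2)[X]) = 1 := by linear_combination (CharTwo.two_eq_zero : (2 : (ZMod 2)[X]) = 0)
  simp only [it, cf, f, e, map_expand, if_true, Nat.add_sub_cancel_left]
  simp [map_ofNat, this, ← pow_mul]
  exact (pow_dvd_pow _ (Nat.le_mul_of_pos_left _ (by positivity))).mul_right _)

lemma wit1 {L r ρ j : ℕ} (hr : d.σ (L + 6) ≤ r) (h1 : ρ ≤ r) (hj : j < 2 ^ (L + 1))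
    (h2 : (∃ k, ρ = d.σ k ∧ r ≤ d.σ k + (2 * k + 2 + d.e k)) ∨
      ρ = r ∧ ∀ k, d.σ k ≤ r → d.σ k + (2 * k + 2 + d.e k) < r) :
    ∃ g, ZE (j * 2 ^ (r - ρ)) 1 (2 * (j * 2 ^ (r - ρ) + 2 ^ (r - ρ)) + 2)
      ((d.y g ρ (r + L + 4)).map (Int.castRingHom ℚ)) := by
  have pp := fun {a b} => Nat.pow_le_pow_iff_right (n := a) (m := b) one_lt_two
  have t1 : 1 ≤ 2 ^ (r - ρ) := Nat.one_le_two_pow
  have hD : j * 2 ^ (r - ρ) + 2 ^ (r - ρ) ≤ 2 ^ (r + L + 1 - ρ) := by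
    rw [show r + L + 1 - ρ = L + 1 + (r - ρ) by omega, pow_add, ← add_one_mul]; gcongr; exact hj
  have e4 : 2 ^ (r + L + 4 - ρ) = 8 * 2 ^ (r + L + 1 - ρ) := by
    rw [show r + L + 4 - ρ = 3 + (r + L + 1 - ρ) by omega, pow_add]; rfl
  generalize j * 2 ^ (r - ρ) = D at *
  have wA : (∀ i ∈ Ico ρ (r + L + 4), d.free i ∧ ∀ k, d.σ k = i → r + L + 4 - ρ ≤ k + 1) →
      ∃ g, ZE D 1 (2 * (D + 2 ^ (r - ρ)) + 2) ((d.y g ρ (r + L + 4)).map (Int.castRingHom ℚ)) :=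
    fun h => ⟨1, (d.witA (by omega) fun i hi => ⟨(h i hi).1, by
      by_cases c : ∃ k, d.σ k = i
      · obtain ⟨k, rfl⟩ := c
        have := pp.mpr ((h _ hi).2 k rfl)
        rw [W_σ]; exact (pow_dvd_pow _ (by omega)).mul_right _
      simp [d.W_ne (by simpa using c)]⟩).mono (by omega)⟩
  obtain ⟨k, rfl, k2⟩ | ⟨rfl, h⟩ := h2
  swap
  · have q : ∀ k, ρ < d.σ k → L + 6 < k := fun k l => d.mono.lt_iff_lt.mp (by omega)
    refine wA fun i hi => ⟨⟨by have := d.hσ (L + 6); simp at hi; omega, fun k => ?_⟩, fun k e => ?_⟩ <;>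
      have := h k <;> have := q k <;> simp at hi ⊢ <;> omega
  have km : L + 6 ≤ k := not_lt.mp fun l => by have := d.sep l; omega
  obtain ⟨-, -, -, -, s1⟩ := d.hσ k
  by_cases cA : r + L + 4 ≤ d.σ k + (k + 1)
  · refine wA fun i hi => ⟨d.free_of (k := k) ?_ ?_ ?_, fun k' e => ?_⟩ <;> rw [mem_Ico] at hi
    · omega
    · omega
    · omega
    have := d.mono.le_iff_le.mp (hi.1.trans_eq e.symm)
    omega
  obtain ⟨a1, a2, -⟩ := d.ha k
  have yw := fun g => d.y_win g (k := k) (R := r + L + 4) (by omega) (by omega)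
  by_cases cC : D < 2 ^ (k + 1)
  · refine ⟨fun i => if i < d.σ k + (k + 1) then 2 * 6 ^ (2 ^ (k + 1) - 2 ^ (i - d.σ k) - 1) else 0,
      (scal (c := 6 ^ 2 ^ (k + 1)) (s := 6) (z := (KK ℤ (k + 1) + X ^ 2 ^ (k + 1) *
        (d.a k).comp (C 6 * X)).map (Int.castRingHom ℚ)) (by positivity) (by norm_num) ?_
        (kem (n := k + 2) (by rw [pow_succ]; omega) ?_)).mono (by omega)⟩
    · rw [yw, ← sum_Ico_consecutive _ (n := d.σ k + (k + 1)) (by omega) (by omega),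
        sum_eq_zero (s := Ico (d.σ k + (k + 1)) _) fun i hi => by
          simp [cf, (mem_Ico.mp hi).1.not_gt], sum_Ico_eq_sum_range, Nat.add_sub_cancel_left]
      simp only [KK, Polynomial.map_add, Polynomial.map_sum, add_comp, Polynomial.sum_comp, mul_add, mul_sum,
        add_zero]
      congr 1
      · refine sum_congr rfl fun i hi => ?_
        rw [mem_range] at hi
        have := Nat.pow_lt_pow_right one_lt_two hi
        obtain ⟨u, hu⟩ := Nat.exists_eq_add_of_lt this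
        rw [cf, if_pos (d.free_of (k := k) (by omega) (by omega) (by omega)), if_pos (by omega),
          Nat.add_sub_cancel_left, hu, show 2 ^ i + u + 1 - 2 ^ i - 1 = u by omega]
        simp [map_ofNat, mul_pow]; ring
      simp [map_comp, map_ofNat, mul_pow]; ring
    obtain ⟨q, hq⟩ := a1
    have : (6 : (ZMod 2)[X]) = 0 := by
      linear_combination 3 * (CharTwo.two_eq_zero : (2 : (ZMod 2)[X]) = 0)
    simp [KK, sum_range_succ _ (k + 1), sub_eq_iff_eq_add.mp hq, Polynomial.map_sum, map_comp,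
      map_ofNat, this]
  obtain ⟨-, n1⟩ := d.hn k
  replace a1 : X ∣ (d.a k).map (Int.castRingHom ℚ) - 1 := by
    simpa using Polynomial.map_dvd (Int.castRingHom ℚ) a1
  replace a2 : X ^ 2 ^ (2 * k + 2 + d.e k) ∣
      (MM (d.n k) (5 * d.n k ^ 2)).eval ((d.a k).map (Int.castRingHom ℚ)) := by
    simpa [MM, map_ofNat] using Polynomial.map_dvd (Int.castRingHom ℚ) a2
  by_cases cB : 2 * D + 2 ≤ 2 ^ (2 * k + 2 + d.e k)
  · refine ⟨0, ?_⟩
    rw [yw]
    simpa [cf] using (ze3 (by positivity) a1 (by omega) (not_lt.mp cC) ((pow_dvd_pow _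
      ((Nat.sub_le _ _).trans cB)).trans a2)).mono (T' := 2 * (D + 2 ^ (r - d.σ k)) + 2) (by omega)
  have l1 : 2 * k + 2 + d.e k ≤ r + L + 2 - d.σ k := pp.mp (by
    rw [show r + L + 2 - d.σ k = r + L + 1 - d.σ k + 1 by omega, pow_succ]; omega)
  have dK : (KK ℚ (k + 1 + d.e k)).natDegree ≤ 2 ^ (r - d.σ k) :=
    natDegree_sum_le_of_forall_le _ _ fun i hi => by
      rw [natDegree_X_pow, pp]; have := mem_range.mp hi; omega
  have H := (show ZE (D + 1 * 2 ^ (r - d.σ k)) 1 _ _ from by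
    rw [one_mul]
    exact kem (y := KK ℤ (r + L + 4 - d.σ k)) (n := r + L + 4 - d.σ k) (by omega)
      (by simp [KK, Polynomial.map_sum])).shift (u := 1) (by rwa [natDegree_neg]) (by simp) (by simp)
  obtain ⟨s, -, hs⟩ := ZE.gen (v₀ := 0) (u := X ^ 2 ^ (k + 1) * (d.a k).map (Int.castRingHom ℚ))
    (by rw [C_0, zero_mul, add_zero]; exact H)
  obtain ⟨_, ⟨w, rfl⟩, hw⟩ := (Set.infinite_range_of_injective (f := fun w : ℕ => (3 * (w + 1) : ℚ)⁻¹)
    fun a b h => by simpa using h).exists_notMem_finset s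
  refine ⟨fun i => if d.σ k + (k + 1 + d.e k) ≤ i then w + 1 else 0, ?_⟩
  convert (show ZE (D + 1 * 0) 1 _ _ from hs _ hw).shift (G := 0) (u := C (3 * (w + 1) : ℚ))
    (by simp) (by rw [natDegree_C]) (C_ne_zero.mpr (by positivity)) using 1
  rw [yw, ← sum_Ico_consecutive _ (n := d.σ k + (k + 1 + d.e k)) (by omega) (by omega),
    sum_eq_zero fun i hi => by simp [cf, (mem_Ico.mp hi).2.not_ge], zero_add, zero_add, mul_add,
    ← mul_assoc, ← C_mul, mul_inv_cancel₀ (by positivity), C_1, one_mul, one_mul, neg_add_eq_sub,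
    sum_congr rfl fun i hi => by
      rw [cf, if_pos (d.free_of (k := k) (by simp at hi; omega) (by simp at hi; omega)
        (by simp at hi; omega)), if_pos (mem_Ico.mp hi).1], ← mul_sum]
  simp only [KK, Polynomial.map_sum, Polynomial.map_pow, map_X, Polynomial.map_add,
    Polynomial.map_mul]
  rw [← sum_Ico_eq_sub _ (by omega), sum_Ico_eq_sum_range, sum_Ico_eq_sum_range, Nat.sub_sub]
  simp [add_assoc, map_ofNat]

end Dt
end Pool.Agent.H46.Tn
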