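import Pool.Agent.H46.Tm.E
set_option autoImplicit false
open Polynomial Finset
namespace Pool.Agent.H46.Tn
open Wx

lemma aux2 {η β D m T κ : ℕ} {ξ x Γ b : ℝ} {p : ℤ} {y : ℤ[X]} (hb : b = η * β) (β0 : 1 ≤ β)
    (hp : (p : ℝ) = b * x) (hx : |x| ≤ 1) (hΓ : 1 ≤ Γ) (hy : Sz y Γ) (h1 : |aeval b⁻¹ y| ≤ 1)
    (h2 : |ξ - x| ≤ 1) (h3 : |ξ - x - aeval b⁻¹ y| ≤ b⁻¹ ^ (T + 1))
    (ze : ZE D m T (y.map (Int.castRingHom ℚ))) (hm : 1 ≤ m)
    (hβ : 4 * ((D + 1) * (m + 1) : ℕ) * m * (2 * Γ) ^ m ≤ η)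
    (hκ : 3 * (η * β) ^ (κ + 1) < β ^ ((D + 1) * (m + 1))) :
    ∃ Q : ℤ[X], Q.natDegree ≤ m ∧ mm Q ≤ b ^ (D + m + 1) ∧
      b ^ (D + m) ≤ 4 * b ^ T * ‖aeval (ξ : ℂ) Q‖ ∧ b ^ κ * ‖aeval (ξ : ℂ) Q‖ ≤ b ^ (D + m) := by
  set M := (D + 1) * (m + 1)
  have M1 : (1 : ℝ) ≤ M := by exact_mod_cast Nat.mul_pos D.succ_pos m.succ_pos
  have m1 : (1 : ℝ) ≤ m := by exact_mod_cast hm
  have g1 : Γ ^ m ≤ (2 * Γ) ^ m := by gcongr; linarith
  have g2 : (2 : ℝ) ^ m ≤ (2 * Γ) ^ m := by gcongr; linarith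
  have g3 := one_le_pow₀ (n := m) hΓ
  have β1 : 4 * M * (2 * Γ) ^ m ≤ η := le_trans (mul_le_mul_of_nonneg_right (by nlinarith)
    (by positivity)) hβ
  have β2 : 4 * M * m ≤ (η : ℝ) := (le_mul_of_one_le_right (by positivity) (g3.trans g1)).trans hβ
  have β4 : (M : ℝ) ≤ η := by nlinarith
  have β5 : (1 : ℝ) ≤ β := by exact_mod_cast β0
  have b1 : 1 ≤ b := by nlinarith
  set τ := b⁻¹ with hτ
  have t0 : 0 < τ := by positivity
  have t1 : τ ≤ 1 := inv_le_one_of_one_le₀ b1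
  have bt : b * τ = 1 := mul_inv_cancel₀ (by positivity)
  have sb : ∀ (A : Fin (D + 1) × Fin (m + 1) → ℤ) (f : _ → ℂ) (s : ℝ), (∀ q, |(A q : ℝ)| ≤ β) →
      (∀ q, ‖f q‖ ≤ s) → ‖∑ q, A q * f q‖ ≤ M * β * s := fun A f s hA hf =>
    (norm_sum_le_of_le _ (n := fun _ => β * s) fun q _ => by
      rw [norm_mul, Complex.norm_intCast]; gcongr; exacts [hA q, hf q]).trans_eq (by simp [M]; ring)
  have pt : ∀ i : ℕ, ‖(τ : ℂ) ^ i‖ ≤ 1 := fun i => by
    rw [norm_pow, Complex.norm_real, Real.norm_of_nonneg t0.le]; exact pow_le_one₀ t0.le t1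
  let V : (Fin (D + 1) × Fin (m + 1) → ℤ) → ℝ := fun A =>
    ∑ q, A q * (τ ^ (q.1 : ℕ) * (ξ - x) ^ (q.2 : ℕ))
  obtain ⟨a, -, a', -, ne, ha⟩ := exists_ne_map_eq_of_card_lt_of_maps_to (s := univ)
    (t := Icc (-((η * β) ^ (κ + 1) : ℤ)) ((η * β) ^ (κ + 1)))
    (f := fun a : Fin (D + 1) × Fin (m + 1) → Fin β => ⌊V (fun q => (a q : ℕ)) * b ^ κ⌋) (by
      have := Nat.one_le_pow (κ + 1) (η * β) (by exact_mod_cast hb ▸ one_pos.trans_le b1)
      simp only [Int.card_Icc, card_univ, Fintype.card_fun, Fintype.card_fin, Fintype.card_prod]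
      rw [← Nat.cast_mul, ← Nat.cast_pow]
      change _ < β ^ M
      omega) fun a _ => by
      have := sb (fun q => (a q : ℕ)) (fun q => τ ^ (q.1 : ℕ) * (ξ - x : ℝ) ^ (q.2 : ℕ)) 1
        (fun q => by simp) fun q => by
          rw [norm_mul, norm_pow (_ : ℂ) q.2, Complex.norm_real]
          exact mul_le_one₀ (pt _) (by positivity) (pow_le_one₀ (norm_nonneg _) h2)
      have k : |V (fun q => (a q : ℕ)) * b ^ κ| ≤ b ^ (κ + 1) := by
        rw [abs_mul, abs_of_pos (by positivity : 0 < b ^ κ), pow_succ']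
        gcongr
        rw [← Real.norm_eq_abs, ← Complex.norm_real]
        simp only [V]
        push_cast at this ⊢
        nlinarith
      rw [abs_le] at k
      simp only [coe_Icc, Set.mem_Icc, Int.le_floor]
      exact ⟨by push_cast; rw [← hb]; exact k.1, Int.cast_le (R := ℝ).mp (by
        push_cast; rw [← hb]; exact (Int.floor_le _).trans k.2)⟩
  set A : Fin (D + 1) × Fin (m + 1) → ℤ := fun q => (a q : ℕ) - (a' q : ℕ) with hA
  have A1 : ∀ q, |(A q : ℝ)| ≤ β := fun q => by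
    have := (a q).2; have := (a' q).2
    rw [← Int.cast_abs]; norm_cast; simp only [hA, abs_le]; omega
  have up : |V A| * b ^ κ ≤ 1 := by
    have := (Int.abs_sub_lt_one_of_floor_eq_floor ha).le
    rw [← sub_mul, abs_mul, abs_of_pos (by positivity : 0 < b ^ κ)] at this
    simpa [V, hA, sub_mul] using this
  set E : ℤ[X] := ∑ q, C (A q) * (X ^ (q.1 : ℕ) * y ^ (q.2 : ℕ)) with hE
  have lo := lowE (E := E) (T := T) (S := M * β * Γ ^ m) (fun d => ne (by
    have := ze.vec (fun q => A q) (by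
      simpa [hE, Polynomial.map_sum, mul_assoc] using Polynomial.map_dvd (Int.castRingHom ℚ) d)
    funext q
    have := congrFun this q
    simp only [hA, Pi.zero_apply, Int.cast_eq_zero] at this
    exact Fin.ext (by omega))) (fun z hz => by
      simp only [hE, map_sum, map_mul, map_pow, aeval_X, aeval_C, eq_intCast, map_intCast]
      refine sb A _ _ A1 fun q => ?_
      rw [norm_mul, norm_pow, norm_pow]
      exact (mul_le_of_le_one_left (by positivity) (pow_le_one₀ (norm_nonneg _) hz)).trans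
        ((pow_le_pow_left₀ (norm_nonneg _) (hy z hz) _).trans
          (pow_le_pow_right₀ hΓ (Nat.lt_succ_iff.mp q.2.2)))) t0.le t1 (by
      rw [← bt]; gcongr ?_ * _
      calc _ = 4 * M * Γ ^ m * β := by ring
        _ ≤ η * β := by gcongr; exact le_trans (by gcongr) β1
        _ = _ := hb.symm)
  have df : ‖aeval (τ : ℂ) E - V A‖ ≤ M * β * (m * τ ^ (T + 1)) := by
    have : aeval (τ : ℂ) y = (aeval τ y : ℝ) := aeval_algebraMap_apply ℂ τ y
    simp only [hE, V, map_sum, map_mul, map_pow, aeval_X, aeval_C, eq_intCast, map_intCast, this,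
      Complex.ofReal_sum, ← sum_sub_distrib, Complex.ofReal_mul, Complex.ofReal_intCast, ← mul_sub,
      Complex.ofReal_pow τ]
    refine sb A _ _ A1 fun q => ?_
    rw [norm_mul, ← Complex.ofReal_pow (aeval τ y), ← Complex.ofReal_sub, Complex.norm_real]
    refine (mul_le_of_le_one_left (norm_nonneg _) (pt _)).trans ((abs_pow_sub_pow_le ..).trans ?_)
    rw [abs_sub_comm, mul_comm (m : ℝ)]
    refine (mul_le_of_le_one_right (by positivity) (pow_le_one₀ (by positivity)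
      (max_le h1 h2))).trans (by gcongr; exact Nat.lt_succ_iff.mp q.2.2)
  have lw : τ ^ T / 4 ≤ |V A| := by
    have := norm_sub_norm_le (aeval (τ : ℂ) E) (V A)
    rw [Complex.norm_real, Real.norm_eq_abs] at this
    have k : M * β * (m * τ ^ (T + 1)) ≤ τ ^ T / 4 := by
      calc _ = 4 * M * m * β * τ * τ ^ T / 4 := by ring
        _ ≤ η * β * τ * τ ^ T / 4 := by gcongr
        _ = _ := by rw [← hb, bt, one_mul]
    linarith
  set Q : ℤ[X] := ∑ q, C (A q * (η * β) ^ (D - q.1 + (m - q.2))) *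
    (C (η * β : ℤ) * X - C p) ^ (q.2 : ℕ) with hQ
  have ev : ∀ z : ℂ, aeval z Q =
      b ^ (D + m) * ∑ q, A q * (τ ^ (q.1 : ℕ) * (z - x) ^ (q.2 : ℕ)) := fun z => by
    have e1 : (p : ℂ) = b * x := by exact_mod_cast hp
    have e2 : (η : ℂ) * β = b := by simp [hb]
    have e3 : (b : ℂ) * τ = 1 := by exact_mod_cast bt
    simp only [hQ, map_sum, map_mul, map_pow, map_sub, aeval_X, aeval_C, eq_intCast, map_intCast,
      map_natCast, Int.cast_natCast, e1, e2, mul_sum, ← mul_sub]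
    refine sum_congr rfl fun q _ => ?_
    obtain ⟨i, hi⟩ := Nat.exists_eq_add_of_le (Nat.lt_succ_iff.mp q.1.2)
    obtain ⟨j, hj⟩ := Nat.exists_eq_add_of_le (Nat.lt_succ_iff.mp q.2.2)
    rw [show D + m = q.1 + (i + j + q.2) by omega, show D - q.1 + (m - q.2) = i + j by omega,
      pow_add _ (q.1 : ℕ), pow_add _ (i + j), mul_pow]
    have e4 : (b : ℂ) ^ (q.1 : ℕ) * τ ^ (q.1 : ℕ) = 1 := by rw [← mul_pow, e3, one_pow]
    linear_combination (-(A q : ℂ) * b ^ (i + j) * b ^ (q.2 : ℕ) * (z - x) ^ (q.2 : ℕ)) * e4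
  have nq : ‖aeval (ξ : ℂ) Q‖ = b ^ (D + m) * |V A| := by
    rw [ev, ← abs_of_pos (by positivity : 0 < b ^ (D + m)), ← abs_mul, ← Real.norm_eq_abs,
      ← Complex.norm_real]
    simp [V]
  have l2 : b ^ (D + m) ≤ 4 * b ^ T * ‖aeval (ξ : ℂ) Q‖ := by
    calc _ = b ^ (D + m) * (b * τ) ^ T := by rw [bt, one_pow, mul_one]
      _ = 4 * b ^ T * (b ^ (D + m) * (τ ^ T / 4)) := by ring
      _ ≤ _ := by rw [nq]; gcongr
  refine ⟨Q, natDegree_sum_le_of_forall_le _ _ fun q _ =>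
    (natDegree_C_mul_le _ _).trans (natDegree_pow_le.trans ((mul_le_mul (Nat.lt_succ_iff.mp q.2.2)
      (by compute_degree) (by simp) (by simp)).trans_eq (mul_one _))),
    mm_circ (one_le_pow₀ b1) fun z hz => ?_, l2, by
      rw [nq, mul_left_comm, mul_comm (b ^ κ)]
      exact mul_le_of_le_one_right (by positivity) up⟩
  rw [ev, norm_mul, norm_pow, Complex.norm_real, Real.norm_of_nonneg (by linarith), pow_succ]
  gcongr
  refine (sb A _ (2 ^ m) A1 fun q => ?_).trans (by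
    calc _ = M * 2 ^ m * (β : ℝ) := by ring
      _ ≤ η * β := by gcongr; exact le_trans (by gcongr; linarith) β1
      _ = _ := hb.symm)
  rw [norm_mul, norm_pow (z - x)]
  refine (mul_le_of_le_one_left (by positivity) (pt _)).trans ((pow_le_pow_left₀ (norm_nonneg _)
    ((norm_sub_le _ _).trans ?_) _).trans (pow_le_pow_right₀ one_le_two (Nat.lt_succ_iff.mp q.2.2)))
  rw [hz, Complex.norm_real, Real.norm_eq_abs]; linarith

end Pool.Agent.H46.Tn
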