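import Pool.Agent.H46.Tm.F
set_option autoImplicit false
open Polynomial Finset
namespace Pool.Agent.H46.Tn
open Wx

lemma ar1 {η u κ j t : ℕ} (e4 : 2 ^ 2 ≤ η) (hκ : 2 * (j * t) = 4 * t + κ) (j2 : j < (u + 1) * 2)
    (u8 : 2 ^ 3 ≤ u + 1) : 3 * (η * η ^ u) ^ (κ + 1) < (η ^ u) ^ ((j * t + 1) * (1 + 1)) := by
  rw [← pow_succ', ← pow_mul, ← pow_mul]
  refine lt_of_lt_of_le (b := η ^ ((u + 1) * (κ + 1) + 1)) (by
    rw [pow_succ' η]; gcongr; omega) (Nat.pow_le_pow_right (by omega) ?_)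
  have := Nat.mul_le_mul_right t j2
  nlinarith

lemma ar2 {D r L ρ : ℕ} (hD : D + 1 ≤ 2 ^ (r + L + 1 - ρ)) (r0 : 4 * L + 80 ≤ r) (r2 : r ≤ 2 * ρ) :
    4 * ((D + 1) * (1 + 1)) * 1 * 2 ^ (13 * (r + L + 4) + 9 + 1) ≤ 2 ^ 2 ^ (ρ - L) := by
  have h3 := pw2 (c := 5) (a := 20) (ρ - L) (by omega) (by omega) (by norm_num)
  have h2 : 2 ^ (r + L + 1 - ρ) ≤ 2 ^ (2 * ρ) := Nat.pow_le_pow_right two_pos (by omega)
  calc _ ≤ 4 * (2 ^ (2 * ρ) * 2) * 1 * 2 ^ (39 * ρ + 10) := by gcongr <;> omega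
    _ = 2 ^ (41 * ρ + 13) := by ring
    _ ≤ 2 ^ (5 * (20 * (ρ - L))) := Nat.pow_le_pow_right two_pos (by omega)
    _ ≤ _ := Nat.pow_le_pow_right two_pos (le_trans (by rw [sq]; gcongr; omega) h3)

lemma ar3 {b m x : ℝ} {j t κ : ℕ} (b4 : 4 ≤ b) (t1 : 1 ≤ t) (hκ : 2 * (j * t) = 4 * t + κ)
    (x0 : 0 ≤ x) (q2 : m ≤ b ^ (j * t + 1 + 1))
    (q3 : b ^ (j * t + 1) ≤ 4 * b ^ (2 * (j * t + t) + 2) * x) (q4 : b ^ κ * x ≤ b ^ (j * t + 1)) :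
    m ≤ (b ^ t) ^ (j + 2) ∧ 1 ≤ (b ^ t) ^ (j + 4) * x ∧ (b ^ t) ^ j * x ≤ (b ^ t) ^ 5 := by
  have b1 : 1 ≤ b := by linarith
  simp only [← pow_mul]
  refine ⟨q2.trans (pow_le_pow_right₀ b1 (by nlinarith)), ?_, ?_⟩
  · refine le_of_mul_le_mul_left ?_ (by positivity : 0 < b ^ (j * t + 1))
    calc _ ≤ b * b ^ (2 * (j * t + t) + 2) * x := by rw [mul_one]; exact q3.trans (by gcongr)
      _ ≤ _ := by rw [← mul_assoc, ← pow_add, ← pow_succ']; gcongr _ ^ ?_ * _; nlinarith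
  refine le_of_mul_le_mul_left ?_ (by positivity : 0 < b ^ (j * t))
  calc _ = b ^ (4 * t) * (b ^ κ * x) := by
        rw [← mul_assoc, ← mul_assoc, ← pow_add, ← pow_add, ← hκ]; ring
    _ ≤ b ^ (4 * t) * b ^ (j * t + 1) := by gcongr
    _ ≤ _ := by rw [← pow_add, ← pow_add]; gcongr _ ^ ?_; omega

lemma Dt.gen1 (d : Dt) {g : ℕ → ℕ} (hg : ∀ i, 1 ≤ g i ∧ g i ≤ 2 ^ (12 * i + 7)) {ξ : ℝ}
    (hξ : ∀ R, |ξ - d.S g (R + 1)| ≤ τ R) {L r ρ j : ℕ} (L3 : 3 ≤ L) (r0 : 4 * L + 80 ≤ r)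
    (r1 : ρ ≤ r) (r2 : r ≤ 2 * ρ) (j1 : 2 ^ L ≤ j) (j2 : j < 2 ^ (L + 1))
    (r3 : ∀ k, d.σ k < ρ → d.σ k + (2 * k + 2 + d.e k) < ρ)
    (ze : ZE (j * 2 ^ (r - ρ)) 1 (2 * (j * 2 ^ (r - ρ) + 2 ^ (r - ρ)) + 2)
      ((d.y g ρ (r + L + 4)).map (Int.castRingHom ℚ))) :
    ∃ Q : ℤ[X], Q.natDegree ≤ 1 ∧ mm Q ≤ (2 ^ 2 ^ r) ^ (j + 2) ∧
      1 ≤ (2 ^ 2 ^ r) ^ (j + 4) * |aeval ξ Q| ∧ (2 ^ 2 ^ r) ^ j * |aeval ξ Q| ≤ (2 ^ 2 ^ r) ^ 5 := by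
  obtain ⟨p, p1, -⟩ := d.intS (g := g) r3
  have hS : ∀ R, 1 ≤ R → |ξ - d.S g R| ≤ 1 / 2 := fun R h => by
    have := hξ (R - 1); rw [Nat.sub_add_cancel h] at this; exact this.trans (τ_le _)
  have x1 := abs_le.mp (d.xi_half hξ)
  have x2 := abs_le.mp (hS ρ (by omega))
  have x3 := abs_le.mp (hS (r + L + 4) (by omega))
  have ye := d.y_eval g (ρ := ρ) (R := r + L + 4) (by omega)
  have hD : j * 2 ^ (r - ρ) + 2 ^ (r - ρ) ≤ 2 ^ (r + L + 1 - ρ) := by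
    rw [show r + L + 1 - ρ = L + 1 + (r - ρ) by omega, pow_add, ← add_one_mul]; gcongr; exact j2
  have eY : (2 : ℝ) ^ 2 ^ r = (2 ^ 2 ^ ρ) ^ 2 ^ (r - ρ) := by
    rw [← pow_mul, ← pow_add, Nat.add_sub_cancel' r1]
  have u8 : 2 ^ 3 ≤ 2 ^ L := Nat.pow_le_pow_right two_pos L3
  obtain ⟨u, hu⟩ : ∃ u, 2 ^ L = u + 1 := ⟨2 ^ L - 1, by omega⟩
  have t1 : 1 ≤ 2 ^ (r - ρ) := Nat.one_le_two_pow
  generalize 2 ^ (r - ρ) = t at *
  obtain ⟨κ, hκ⟩ : ∃ κ, 2 * (j * t) = 4 * t + κ := Nat.exists_eq_add_of_le (by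
    have := Nat.mul_le_mul_right t (u8.trans j1); omega)
  obtain ⟨Q, q1, q2, q3, q4⟩ := aux2 (η := 2 ^ 2 ^ (ρ - L)) (β := (2 ^ 2 ^ (ρ - L)) ^ u) (κ := κ)
    (ξ := ξ) (b := 2 ^ 2 ^ ρ) (x := d.S g ρ) (p := p) (by
      push_cast
      rw [← pow_succ', ← hu, ← pow_mul, ← pow_add, Nat.sub_add_cancel (by omega)])
    (Nat.one_le_pow _ _ (by positivity)) p1 (abs_le.mpr ⟨by linarith, by linarith⟩)
    (one_le_pow₀ one_le_two) (d.y_Sz hg ρ _) (by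
      rw [← τ, ye]; exact abs_le.mpr ⟨by linarith, by linarith⟩)
    (abs_le.mpr ⟨by linarith, by linarith⟩) (by
      have := hξ (r + L + 3)
      rw [← τ_pow (show ρ ≤ _ by omega)] at this
      rw [← τ, ye, sub_sub, add_sub_cancel]
      refine this.trans (pow_le_pow_of_le_one (τ_pos _).le (by linarith [τ_le ρ]) ?_)
      rw [show r + L + 3 - ρ = r + L + 1 - ρ + 2 by omega, pow_add]
      omega) ze le_rfl (by
      rw [pow_one, ← pow_succ']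
      exact_mod_cast ar2 (by omega) r0 r2) (ar1 (Nat.pow_le_pow_right two_pos
        (le_trans (by omega) Nat.lt_two_pow_self.le)) hκ (by rwa [← hu, ← pow_succ]) (hu ▸ u8))
  rw [cst] at q3 q4
  rw [eY]
  refine ⟨Q, q1, ar3 ?_ t1 hκ (abs_nonneg _) q2 q3 q4⟩
  rw [show (4 : ℝ) = 2 ^ 2 by norm_num]
  exact pow_le_pow_right₀ one_le_two (le_trans (by omega) Nat.lt_two_pow_self.le)

lemma lin {ξ Y H : ℝ} {j : ℕ} {p q p' q' : ℤ} (hξ : |ξ| ≤ 1 / 2) (Y2 : 2 ≤ Y) (q0 : q ≠ 0 ∨ p ≠ 0)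
    (hq : |(q : ℝ)| ≤ H) (hH : H = |(q : ℝ)| ∨ H = |(p : ℝ)|) (h1 : Y ^ j ≤ H)
    (h2 : H ≤ Y ^ (j + 1)) (h3 : |(q' : ℝ)| ≤ Y ^ (j + 10))
    (h4 : 1 ≤ Y ^ (j + 11) * |q' * ξ + p'|) (h5 : Y ^ (j + 7) * |q' * ξ + p'| ≤ Y ^ 5) :
    1 ≤ H * Y ^ 22 * |q * ξ + p| := by
  have Y1 : 1 ≤ Y := by linarith
  have j1 := one_le_pow₀ (n := j) Y1
  have k : 1 ≤ H * Y ^ 22 := one_le_mul_of_one_le_of_one_le (j1.trans h1) (one_le_pow₀ Y1)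
  by_cases c : 1 ≤ |q * ξ + p|
  · exact one_le_mul_of_one_le_of_one_le k c
  have e : (q' * p - q * p' : ℤ) = q' * (q * ξ + p) - q * (q' * ξ + p') := by push_cast; ring
  set x := |q * ξ + p| with hx
  set y := |q' * ξ + p'| with hy
  have x0 : 0 ≤ x := abs_nonneg _
  have y0 : 0 ≤ y := abs_nonneg _
  by_cases z : q' * p - q * p' = 0
  · have e2 : |(q' : ℝ)| * x = |(q : ℝ)| * y := by
      rw [z, Int.cast_zero, eq_comm, sub_eq_zero] at e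
      rw [hx, hy, ← abs_mul, ← abs_mul, e]
    have q1 : (1 : ℝ) ≤ |(q : ℝ)| := by
      refine mod_cast Int.one_le_abs fun k => c ?_
      rw [hx, k, Int.cast_zero, zero_mul, zero_add]
      exact_mod_cast Int.one_le_abs (q0.resolve_left (by simpa))
    have q2 : H ≤ Y * |(q : ℝ)| := by
      have := abs_sub (q * ξ + p) (q * ξ)
      rw [add_sub_cancel_left, abs_mul] at this
      have a := mul_le_mul_of_nonneg_left hξ (abs_nonneg (q : ℝ))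
      have b := mul_le_mul_of_nonneg_right Y2 (abs_nonneg (q : ℝ))
      rcases hH with h | h <;> linarith
    refine le_of_mul_le_mul_left ?_ (by positivity : 0 < Y ^ j)
    calc Y ^ j * 1 ≤ Y * |(q : ℝ)| * (Y ^ (j + 11) * y) := by gcongr; linarith
      _ = Y ^ (j + 12) * (|(q' : ℝ)| * x) := by rw [e2]; ring
      _ ≤ Y ^ (j + 12) * (Y ^ (j + 10) * x) := by gcongr
      _ = Y ^ j * (Y ^ j * Y ^ 22 * x) := by ring
      _ ≤ _ := by gcongr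
  have a : (1 : ℝ) ≤ |(q' : ℝ)| * x + |(q : ℝ)| * y := by
    rw [hx, hy, ← abs_mul, ← abs_mul]
    exact le_trans (by rw [← e]; exact_mod_cast Int.one_le_abs z) (abs_sub _ _)
  have b : Y * (|(q : ℝ)| * y) ≤ 1 := by
    refine le_of_mul_le_mul_left ?_ (by positivity : 0 < Y ^ 5)
    calc _ ≤ Y ^ 5 * (Y * (Y ^ (j + 1) * y)) := by gcongr; linarith
      _ = Y ^ (j + 7) * y := by ring
      _ ≤ _ := by rwa [mul_one]
  calc (1 : ℝ) ≤ Y * (|(q' : ℝ)| * x) := by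
        linarith [mul_le_mul_of_nonneg_left a (zero_le_one.trans Y1)]
    _ ≤ Y * (Y ^ (j + 10) * x) := by gcongr
    _ = Y ^ j * Y ^ 11 * x := by ring
    _ ≤ _ := by have := j1.trans h1; gcongr; norm_num

lemma engine1 {ξ : ℝ} (hξ : |ξ| ≤ 1 / 2) {a r0 : ℕ} (a1 : 1 ≤ a)
    (h : ∀ r j, r0 ≤ r → a + 7 ≤ j → j < 2 * (a + 7) → ∃ Q : ℤ[X], Q.natDegree ≤ 1 ∧
      mm Q ≤ (2 ^ 2 ^ r) ^ (j + 2) ∧ 1 ≤ (2 ^ 2 ^ r) ^ (j + 4) * |aeval ξ Q| ∧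
        (2 ^ 2 ^ r) ^ j * |aeval ξ Q| ≤ (2 ^ 2 ^ r) ^ 5)
    {P : ℤ[X]} (p0 : P ≠ 0) (p1 : P.natDegree ≤ 1) (p2 : (2 ^ 2 ^ r0) ^ a ≤ P.supNorm) :
    1 ≤ P.supNorm ^ (a + 22) * |aeval ξ P| ^ a := by
  classical
  set H := P.supNorm
  have ex : ∃ r : ℕ, H < (2 ^ 2 ^ (r0 + r + 1)) ^ a := by
    obtain ⟨r, hr⟩ := pow_unbounded_of_one_lt H one_lt_two
    refine ⟨r, hr.trans_le ((pow_le_pow_right₀ one_le_two ?_).trans
      (le_self_pow₀ (one_le_pow₀ one_le_two) (by omega)))⟩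
    exact le_trans (by omega) Nat.lt_two_pow_self.le
  have r2 := Nat.find_spec ex
  have r1 : (2 ^ 2 ^ (r0 + Nat.find ex)) ^ a ≤ H := by
    rcases e : Nat.find ex with _ | i
    exacts [p2, not_lt.mp (Nat.find_min ex (by omega : i < Nat.find ex))]
  rw [pow_succ 2, pow_mul, ← pow_mul _ 2] at r2
  replace h := fun j => h (r0 + Nat.find ex) j (by omega)
  have Y2 : (2 : ℝ) ≤ 2 ^ 2 ^ (r0 + Nat.find ex) := le_self_pow₀ one_le_two (by positivity)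
  generalize (2 : ℝ) ^ 2 ^ (r0 + Nat.find ex) = Y at *
  obtain ⟨j, j1, j2⟩ := exists_nat_pow_near (x := H) (sup1 p0) (show 1 < Y by linarith)
  have j3 := (pow_lt_pow_iff_right₀ (show 1 < Y by linarith)).mp (r1.trans_lt j2)
  have j4 := (pow_lt_pow_iff_right₀ (show 1 < Y by linarith)).mp (j1.trans_lt r2)
  obtain ⟨Q, q1, q2, q3, q4⟩ := h (j + 7) (by omega) (by omega)
  have ev : ∀ {P : ℤ[X]}, P.natDegree ≤ 1 → aeval ξ P = P.coeff 1 * ξ + P.coeff 0 := fun h => by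
    rw [aeval_eq_sum_range' (Nat.lt_succ_of_le h)]; simp [sum_range_succ, add_comm]
  rw [ev q1] at q3 q4
  have := lin (p := P.coeff 0) (q := P.coeff 1) hξ Y2 (by
      by_contra! k
      exact p0 (by rw [eq_X_add_C_of_natDegree_le_one p1, k.1, k.2]; simp))
    (Int.norm_eq_abs _ ▸ P.le_supNorm 1) (by
      obtain ⟨i, hi⟩ := P.exists_eq_supNorm
      have := sup1 p0
      rw [Int.norm_eq_abs] at hi
      rcases i with _ | _ | i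
      exacts [.inr hi, .inl hi, by
        rw [hi, coeff_eq_zero_of_natDegree_lt (by omega)] at this; norm_num at this]) j1 j2.le
    ((Int.norm_eq_abs _ ▸ Q.le_supNorm 1).trans ((sup_le Q).trans (by
      rw [pow_succ' Y (j + 9)]
      exact mul_le_mul ((pow_le_pow_right₀ one_le_two q1).trans (by linarith)) q2
        (mahlerMeasure_nonneg _) (by linarith)))) q3 q4
  rw [ev p1]
  calc (1 : ℝ) ≤ (H * Y ^ 22 * |P.coeff 1 * ξ + P.coeff 0|) ^ a := one_le_pow₀ this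
    _ = H ^ a * (Y ^ a) ^ 22 * |P.coeff 1 * ξ + P.coeff 0| ^ a := by
      rw [mul_pow, mul_pow, pow_right_comm]
    _ ≤ _ := by rw [pow_add]; have := sup1 p0; gcongr

theorem small (L : ℕ) (L3 : 3 ≤ L) : ∃ ξ M B α, Good2 (fun k => 18 * 8 ^ k.unpair.1 + 1)
    (fun k => 7 * k.unpair.1 + 10) ξ M B α ∧ ∃ H : ℝ, ∀ P : ℤ[X], P ≠ 0 → P.natDegree ≤ 1 →
      H ≤ P.supNorm → 1 ≤ P.supNorm ^ (2 ^ L - 7 + 22) * |aeval ξ P| ^ (2 ^ L - 7) := by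
  obtain ⟨d, d1, d2⟩ := Dt_ex (fun k => 18 * 8 ^ k.unpair.1 + 1) (fun k => 7 * k.unpair.1 + 10)
    (fun k => by have := Nat.one_le_pow k.unpair.1 8 (by norm_num); omega) (by omega)
  rw [← d1, ← d2]
  choose ρ r1 r2 r3 r4 using d.rho3
  obtain ⟨g, ρ', hg, H, Z⟩ := d.digits2 (ι := ℕ × ℕ)
    (fun c => d.σ (L + 6) + 4 * L + 80 ≤ c.1 ∧ c.2 < 2 ^ (L + 1)) (fun c => ρ c.1)
    (fun c => c.1 + L + 4) (fun c => c.2 * 2 ^ (c.1 - ρ c.1)) (fun _ => 1)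
    (fun c => 2 * (c.2 * 2 ^ (c.1 - ρ c.1) + 2 ^ (c.1 - ρ c.1)) + 2) (fun c => 2 ^ (2 * c.1 + 3))
    (fun i => range (2 * i + 1) ×ˢ range (2 ^ i)) (fun c i h a _ => by
      have := r2 c.1
      have := Nat.pow_le_pow_right two_pos (show L + 1 ≤ i by omega)
      simp; omega) (fun i => by
      refine (sum_le_card_nsmul _ _ (2 ^ (4 * i + 3)) fun c hc =>
        Nat.pow_le_pow_right two_pos (by simp at hc; omega)).trans ?_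
      have : i < 2 ^ i := Nat.lt_two_pow_self
      calc _ = (2 * i + 1) * 2 ^ i * 2 ^ (4 * i + 3) := by simp
        _ ≤ (2 * 2 ^ i) * 2 ^ i * 2 ^ (10 * i + 4) := by gcongr <;> omega
        _ = _ := by ring) (fun c h => by
      have a : 2 ^ (c.1 - ρ c.1) ≤ 2 ^ c.1 := Nat.pow_le_pow_right two_pos (by omega)
      have b : 2 ^ (L + 1) ≤ 2 ^ c.1 := Nat.pow_le_pow_right two_pos (by omega)
      calc _ ≤ (2 ^ c.1 * 2 ^ c.1 + 2 ^ c.1 * 2 ^ c.1) * (1 + 1) * (2 * 1) := by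
            gcongr; exacts [by omega, Nat.one_le_iff_ne_zero.mpr (by positivity)]
        _ = _ := by ring) fun c h => d.wit1 (by omega) (r1 _) h.2 (r4 _)
  obtain ⟨ξ, hξ⟩ := d.xi hg
  obtain ⟨M, B, α, G⟩ := d.mainG hg H (ξ := ξ) 0 rfl (fun _ => ⟨0, by simp⟩) fun _ R _ => by
    simpa using hξ R
  have u8 : 2 ^ 3 ≤ 2 ^ L := Nat.pow_le_pow_right two_pos L3
  exact ⟨ξ, M, B, α, G, _, fun P => engine1 (r0 := d.σ (L + 6) + 4 * L + 80) (d.xi_half hξ)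
    (by omega) fun r j a b c => d.gen1 hg hξ L3 (by omega) (r1 r) (r2 r) (by omega) (by omega) (r3 r)
      (Z (r, j) ⟨a, by simp only; omega⟩)⟩

end Pool.Agent.H46.Tn
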